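import Pool.Agent.MP_3d209c_an.H61.Blocks

/-! Determinants of positive semidefinite ternary pencils are generated from the linear forms on
the three edges by products and triangles. -/

namespace Pool.Agent.MP_3d209c_an.H61

open Matrix
open scoped ComplexOrder

variable {Ω : Type} {ι : Type} [Fintype ι] [DecidableEq ι]

/-- All non-negative combinations of two functions lie in `G`. -/
def Edge (G : Set (Ω → ℂ)) (p q : Ω → ℂ) : Prop :=
  ∀ a b : ℝ, 0 ≤ a → 0 ≤ b → (fun ω => a * p ω + b * q ω) ∈ G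

/-- Classes of functions closed under products, real multiples and triangles. -/
structure Cls (G : Set (Ω → ℂ)) : Prop where
  one : (fun _ => 1) ∈ G
  mul : ∀ {p q}, p ∈ G → q ∈ G → (fun ω => p ω * q ω) ∈ G
  smul : ∀ (c : ℝ) {p}, p ∈ G → (fun ω => c * p ω) ∈ G
  tri : ∀ {p q r}, Edge G p q → Edge G q r → Edge G r p → ∀ a b c : ℝ, 0 ≤ a → 0 ≤ b → 0 ≤ c →
    (fun ω => a * p ω + b * q ω + c * r ω) ∈ G

/-- All determinants of positive semidefinite pencils of a given size lie in `G`. -/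
def Pen (G : Set (Ω → ℂ)) (ι : Type) [Fintype ι] [DecidableEq ι] (x y z : Ω → ℂ) : Prop :=
  ∀ A B C : Matrix ι ι ℂ, A.PosSemidef → B.PosSemidef → C.PosSemidef →
    (fun ω => (x ω • A + y ω • B + z ω • C).det) ∈ G

variable {G : Set (Ω → ℂ)} {x y z : Ω → ℂ}

theorem mem_of_eq {p q : Ω → ℂ} (h : p ∈ G) (e : ∀ ω, q ω = p ω) : q ∈ G := funext e ▸ h

theorem Edge.left {p q : Ω → ℂ} (h : Edge G p q) : p ∈ G :=
  mem_of_eq (h 1 0 zero_le_one le_rfl) fun ω => by simp

theorem Edge.right {p q : Ω → ℂ} (h : Edge G p q) : q ∈ G :=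
  mem_of_eq (h 0 1 le_rfl zero_le_one) fun ω => by simp

theorem Pen.swap (h : Pen G ι x y z) : Pen G ι y x z := fun A B C hA hB hC =>
  mem_of_eq (h B A C hB hA hC) fun ω => by rw [add_comm (y ω • A)]

theorem edge_kap (hG : Cls G) (h : Pen G ι x y z) {A B C : Matrix ι ι ℂ} (hA : A.PosSemidef)
    (hB : B.PosSemidef) (hC : C.PosSemidef) (v : ι → ℂ) :
    Edge G (fun ω => (x ω • A + y ω • B + z ω • C).det)
      fun ω => x ω * kap (star v) v (x ω • A + y ω • B + z ω • C) := by
  intro a b ha hb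
  have hv := posSemidef_vecMulVec_self_star v
  rcases ha.eq_or_lt with rfl | ha
  · by_cases h0 : v = 0
    · refine mem_of_eq (hG.smul 0 hG.one) fun ω => ?_
      simpa [h0] using Or.inr (Or.inr (kap_smul' 0 0 0 _))
    have hn : star v ⬝ᵥ v ≠ 0 := mt dotProduct_star_self_eq_zero.1 h0
    set P := 1 - vecMulVec ((star v ⬝ᵥ v)⁻¹ • v) (star v) with hP
    refine mem_of_eq (hG.smul b (h _ _ _ ((hA.conjTranspose_mul_mul_same P).add hv)
      (hB.conjTranspose_mul_mul_same P) (hC.conjTranspose_mul_mul_same P))) fun ω => ?_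
    have e : x ω • (Pᴴ * A * P + vecMulVec v (star v)) + y ω • (Pᴴ * B * P) + z ω • (Pᴴ * C * P)
        = Pᴴ * (x ω • A + y ω • B + z ω • C) * P + x ω • vecMulVec v (star v) := by
      simp only [mul_add, add_mul, Matrix.mul_smul, Matrix.smul_mul, smul_add]
      abel
    rw [e, det_add_smul, det_mul, hP, det_proj (by simp [hn]), cong, kap_col, kap_row]
    simp
  · refine mem_of_eq (hG.smul a (h _ _ _ (hA.add (hv.smul
      (Complex.zero_le_real.2 (div_nonneg hb ha.le)))) hB hC)) fun ω => ?_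
    have e : x ω • (A + ((b / a : ℝ) : ℂ) • vecMulVec v (star v)) + y ω • B + z ω • C
        = (x ω • A + y ω • B + z ω • C) + (x ω * (b / a : ℝ)) • vecMulVec v (star v) := by
      simp only [smul_add, smul_smul]
      abel
    have : (a : ℂ) ≠ 0 := Complex.ofReal_ne_zero.2 ha.ne'
    rw [e, det_add_smul, Complex.ofReal_div]
    field_simp

theorem move_corner (hG : Cls G) (h : Pen G ι x y z) (hxy : Edge G x y)
    {A B C : Matrix (Unit ⊕ ι) (Unit ⊕ ι) ℂ} (hA : A.PosSemidef) (hB : B.PosSemidef)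
    (hC : C.PosSemidef) (h0 : C (Sum.inl ()) (Sum.inl ()) = 0) :
    (fun ω => (x ω • A + y ω • B + z ω • C).det) ∈ G := by
  obtain ⟨a, l, A', a0, -, hA', rfl⟩ := decomp hA
  obtain ⟨b, m, B', b0, -, hB', rfl⟩ := decomp hB
  obtain ⟨c, l', C', -, hc, hC', e⟩ := decomp hC
  rw [hc, h0, zero_smul, add_zero] at e
  have e1 := edge_kap hG h hA' hB' hC' (m - l)
  have e2 := edge_kap hG h.swap hB' hA' hC' (m - l)
  simp only [add_comm (y _ • B')] at e2
  refine mem_of_eq (hG.tri (p := fun ω => x ω * (x ω • A' + y ω • B' + z ω • C').det)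
    (q := fun ω => y ω * (x ω • A' + y ω • B' + z ω • C').det)
    (r := fun ω => x ω * y ω * kap (star (m - l)) (m - l) (x ω • A' + y ω • B' + z ω • C'))
    (fun s t hs ht => mem_of_eq (hG.mul (hxy s t hs ht) e1.left) fun ω => by ring)
    (fun s t hs ht => mem_of_eq (hG.mul hxy.right (e1 s t hs ht)) fun ω => by ring)
    (fun s t hs ht => mem_of_eq (hG.mul hxy.left (e2 t s ht hs)) fun ω => by ring)
    a b (a * b) a0 b0 (mul_nonneg a0 b0)) fun ω => ?_
  have e3 : x ω • (bl 0 0 0 A' + (a : ℂ) • rk l) + y ω • (bl 0 0 0 B' + (b : ℂ) • rk m) + z ω • C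
      = bl 0 0 0 (x ω • A' + y ω • B' + z ω • C') + (x ω * a) • rk l + (y ω * b) • rk m := by
    rw [e]
    ext (i | i) (j | j) <;> simp [bl] <;> ring
  rw [e3, det_two, Complex.ofReal_mul]
  ring

theorem move_sing (hG : Cls G) (h : Pen G ι x y z) (hxy : Edge G x y)
    {A B C : Matrix (Unit ⊕ ι) (Unit ⊕ ι) ℂ} (hA : A.PosSemidef) (hB : B.PosSemidef)
    (hC : C.PosSemidef) (h0 : C.det = 0) :
    (fun ω => (x ω • A + y ω • B + z ω • C).det) ∈ G := by
  obtain ⟨u, hu, hu0⟩ := exists_mulVec_eq_zero_iff.2 h0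
  obtain ⟨P, hP, hPu⟩ := exists_frame hu (Sum.inl ())
  refine mem_of_eq (hG.smul (Complex.normSq P.det)⁻¹ (move_corner hG h hxy
    (hA.conjTranspose_mul_mul_same P) (hB.conjTranspose_mul_mul_same P)
    (hC.conjTranspose_mul_mul_same P) ?_)) fun ω => ?_
  · rw [Matrix.mul_assoc, mul_apply]
    refine Finset.sum_eq_zero fun i _ => mul_eq_zero_of_right _ ?_
    simp only [mul_apply, hPu]
    exact congrFun hu0 i
  · have e : x ω • (Pᴴ * A * P) + y ω • (Pᴴ * B * P) + z ω • (Pᴴ * C * P)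
        = Pᴴ * (x ω • A + y ω • B + z ω • C) * P := by
      simp only [mul_add, add_mul, Matrix.mul_smul, Matrix.smul_mul]
    have : (starRingEnd ℂ) P.det ≠ 0 := by simpa using hP
    rw [e, det_mul, det_mul, det_conjTranspose, Complex.ofReal_inv, Complex.normSq_eq_conj_mul_self,
      Complex.star_def]
    field_simp

theorem det_add_corner (N : Matrix (Unit ⊕ ι) (Unit ⊕ ι) ℂ) (t : ℂ) :
    (N + t • vecMulVec (Pi.single (Sum.inl ()) 1) (star (Pi.single (Sum.inl ()) 1))).det
      = N.det + t * (N.submatrix .inr .inr).det := by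
  have e : ∀ s : ℂ, N + s • vecMulVec (Pi.single (Sum.inl ()) 1) (star (Pi.single (Sum.inl ()) 1)) =
      bl (N (Sum.inl ()) (Sum.inl ()) + s) (fun j => N (Sum.inl ()) (.inr j)) (fun i => N (.inr i) (Sum.inl ()))
        (N.submatrix .inr .inr) := fun s => by
    ext (i | i) (j | j) <;> simp [bl, vecMulVec_apply]
  have e0 := e 0
  rw [zero_smul, add_zero] at e0
  rw [e, congrArg det e0, det_bl, det_bl]
  ring

theorem move_step (hG : Cls G) (h1 : Pen G ι x y z) (h2 : Pen G ι y z x) (h3 : Pen G ι z x y)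
    (hxy : Edge G x y) (hyz : Edge G y z) (hzx : Edge G z x) : Pen G (Unit ⊕ ι) x y z := by
  intro A B C hA hB hC
  have he : (Pi.single (Sum.inl ()) 1 : Unit ⊕ ι → ℂ) ≠ 0 := by simp
  have hE := posSemidef_vecMulVec_self_star (Pi.single (Sum.inl ()) 1 : Unit ⊕ ι → ℂ)
  obtain ⟨a, A', a0, hA', dA, rfl⟩ := peel hA he
  obtain ⟨b, B', b0, hB', dB, rfl⟩ := peel hB he
  have hd := det_add_corner (ι := ι)
  set E := vecMulVec (Pi.single (Sum.inl ()) 1 : Unit ⊕ ι → ℂ)
    (star (Pi.single (Sum.inl ()) 1 : Unit ⊕ ι → ℂ))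
  have hh : (fun ω => ((x ω • A' + y ω • B' + z ω • C).submatrix .inr .inr).det) ∈ G :=
    h1 _ _ _ (hA'.submatrix .inr) (hB'.submatrix .inr) (hC.submatrix .inr)
  refine mem_of_eq (hG.tri (p := fun ω => (x ω • A' + y ω • B' + z ω • C).det)
    (q := fun ω => x ω * ((x ω • A' + y ω • B' + z ω • C).submatrix .inr .inr).det)
    (r := fun ω => y ω * ((x ω • A' + y ω • B' + z ω • C).submatrix .inr .inr).det)
    (fun s t hs ht => ?_)
    (fun s t hs ht => mem_of_eq (hG.mul (hxy s t hs ht) hh) fun ω => by ring)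
    (fun t s ht hs => ?_) 1 a b zero_le_one a0 b0) fun ω => ?_
  · rcases hs.eq_or_lt with rfl | hs
    · exact mem_of_eq (hG.smul t (hG.mul hxy.left hh)) fun ω => by simp
    refine mem_of_eq (hG.smul s (move_sing hG h3 hzx hC (hA'.add (hE.smul
      (Complex.zero_le_real.2 (div_nonneg ht hs.le)))) hB' dB)) fun ω => ?_
    have e : z ω • C + x ω • (A' + ((t / s : ℝ) : ℂ) • E) + y ω • B'
        = (x ω • A' + y ω • B' + z ω • C) + (x ω * (t / s : ℝ)) • E := by
      simp only [smul_add, smul_smul]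
      abel
    have : (s : ℂ) ≠ 0 := Complex.ofReal_ne_zero.2 hs.ne'
    rw [e, hd, Complex.ofReal_div]
    field_simp
  · rcases hs.eq_or_lt with rfl | hs
    · exact mem_of_eq (hG.smul t (hG.mul hxy.right hh)) fun ω => by simp
    refine mem_of_eq (hG.smul s (move_sing hG h2 hyz (hB'.add (hE.smul
      (Complex.zero_le_real.2 (div_nonneg ht hs.le)))) hC hA' dA)) fun ω => ?_
    have e : y ω • (B' + ((t / s : ℝ) : ℂ) • E) + z ω • C + x ω • A'
        = (x ω • A' + y ω • B' + z ω • C) + (y ω * (t / s : ℝ)) • E := by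
      simp only [smul_add, smul_smul]
      abel
    have : (s : ℂ) ≠ 0 := Complex.ofReal_ne_zero.2 hs.ne'
    rw [e, hd, Complex.ofReal_div]
    field_simp
    ring
  · have e : x ω • (A' + (a : ℂ) • E) + y ω • (B' + (b : ℂ) • E) + z ω • C
        = (x ω • A' + y ω • B' + z ω • C) + (x ω * a + y ω * b) • E := by
      simp only [smul_add, add_smul, smul_smul]
      abel
    rw [e, hd]
    push_cast
    ring

theorem moves (hG : Cls G) (d : ℕ) : ∀ {x y z : Ω → ℂ}, Edge G x y → Edge G y z → Edge G z x →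
    Pen G (Fin d) x y z := by
  induction d with
  | zero => exact fun _ _ _ A B C _ _ _ => mem_of_eq hG.one fun ω => det_isEmpty
  | succ d ih =>
    intro x y z hxy hyz hzx A B C hA hB hC
    let e : Unit ⊕ Fin d ≃ Fin (d + 1) := Fintype.equivOfCardEq (by simp [add_comm])
    refine mem_of_eq (move_step hG (ih hxy hyz hzx) (ih hyz hzx hxy) (ih hzx hxy hyz) hxy hyz hzx
      _ _ _ (hA.submatrix e) (hB.submatrix e) (hC.submatrix e)) fun ω => ?_
    rw [← det_submatrix_equiv_self e]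
    rfl

end Pool.Agent.MP_3d209c_an.H61
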