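import Pool.Agent.MP_3d209c_an.H61.Rep
import Pool.Agent.MP_3d209c_an.H61.Moves

/-! The triangle lemma, pencils of two forms, and the theorem for open simplicial cones. -/

namespace Pool.Agent.MP_3d209c_an.H61

open Matrix Set Pool.Agent.MP_3d209c_an.H71
open scoped ComplexOrder

variable {m n : ℕ} {W : Set (Fin m → ℝ)}

theorem triangle (hW : W.Nonempty) {p q r : MvPolynomial (Fin m) ℝ}
    (hpq : ∀ a b : ℝ, 0 ≤ a → 0 ≤ b → a • p + b • q ∈ HV W ∪ {0})
    (hqr : ∀ a b : ℝ, 0 ≤ a → 0 ≤ b → a • q + b • r ∈ HV W ∪ {0})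
    (hrp : ∀ a b : ℝ, 0 ≤ a → 0 ≤ b → a • r + b • p ∈ HV W ∪ {0})
    {a b c : ℝ} (ha : 0 ≤ a) (hb : 0 ≤ b) (hc : 0 ≤ c) : a • p + b • q + c • r ∈ HV W ∪ {0} := by
  let S : Polynomial ℝ →ₗ[ℝ] MvPolynomial (Fin m) ℝ :=
    (Polynomial.lcoeff ℝ 0).smulRight ((2 : ℝ) • p - q) + (Polynomial.lcoeff ℝ 1).smulRight (q - p)
      + (Polynomial.lcoeff ℝ 2).smulRight ((1 / 2 : ℝ) • (r + p) - q)
  have hS : ∀ t : Fin 2 → ℝ, S (F 1 Polynomial.X t) = ((2 - t 0) * (2 - t 1) / 2) • p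
      + ((1 - t 0) * (t 1 - 1)) • q + (t 0 * t 1 / 2) • r := fun t => by
    have : F (1 : Polynomial ℝ) Polynomial.X t
        = 1 + (t 0 + t 1) • Polynomial.X + (t 0 * t 1) • Polynomial.X ^ 2 := by
      simp only [F, Fin.prod_univ_two, Algebra.smul_def, map_add, map_mul]
      ring
    simp [this, S, Polynomial.coeff_one, Polynomial.coeff_X]
    module
  have key := targetC 1 Polynomial.X S hW (a := ![0, 1]) (b := ![1, 2]) fun t ht h => by
    have a0 : 0 ≤ t 0 := ht.1 0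
    have a1 : 1 ≤ t 1 := ht.1 1
    have b0 : t 0 ≤ 1 := ht.2 0
    have b1 : t 1 ≤ 2 := ht.2 1
    have c1 : 0 ≤ (2 - t 0) * (2 - t 1) / 2 := by
      have := mul_nonneg (by linarith : 0 ≤ 2 - t 0) (sub_nonneg.2 b1); linarith
    have c2 : 0 ≤ (1 - t 0) * (t 1 - 1) := mul_nonneg (sub_nonneg.2 b0) (sub_nonneg.2 a1)
    have c3 : 0 ≤ t 0 * t 1 / 2 := by
      have := mul_nonneg a0 (by linarith : 0 ≤ t 1); linarith
    rw [hS]
    rcases a0.eq_or_lt with e | a0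
    · simpa [← e] using hpq _ _ c1 c2
    rcases b0.eq_or_lt with e | b0
    · simpa [e, add_comm] using hrp _ _ c3 c1
    rcases a1.eq_or_lt with e | a1
    · simpa [← e, add_comm] using hrp _ _ c3 c1
    rcases b1.eq_or_lt with e | b1
    · simpa [e] using hqr _ _ c2 c3
    exact absurd (h 0 1 a0 b0 a1 b1) (by linarith)
  rcases (by positivity : 0 ≤ a + b + c).eq_or_lt with h0 | h0
  · rw [(by linarith : c = 0), zero_smul, add_zero]
    exact hpq a b ha hb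
  set σ := a + b + c with hσ
  have hb' := div_nonneg hb h0.le
  obtain ⟨D, hD, hD2⟩ : ∃ D : ℝ, 0 ≤ D ∧ D * D = ((c - a) / σ) ^ 2 + 4 * (b / σ) :=
    ⟨√_, Real.sqrt_nonneg _, Real.mul_self_sqrt (by positivity)⟩
  obtain ⟨x, y, hxy, e1, e2, e3⟩ : ∃ x y : ℝ, x ≤ y ∧ (2 - x) * (2 - y) / 2 = a / σ ∧
      (1 - x) * (y - 1) = b / σ ∧ x * y / 2 = c / σ := by
    have e0 : a / σ + b / σ + c / σ = 1 := by field_simp; rfl
    rw [sub_div] at hD2
    exact ⟨(2 + (c / σ - a / σ) - D) / 2, (2 + (c / σ - a / σ) + D) / 2, by linarith,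
      by linear_combination (-1 / 8) * hD2 - 1 / 2 * e0, by linear_combination (1 / 4) * hD2,
      by linear_combination (-1 / 8) * hD2 - 1 / 2 * e0⟩
  have ha' := div_nonneg ha h0.le
  have hc' := div_nonneg hc h0.le
  have x1 : x ≤ 1 := by nlinarith
  have y1 : 1 ≤ y := by nlinarith
  have := smul_mem (key ![x, y] ⟨Fin.forall_fin_two.2 ⟨show 0 ≤ x by nlinarith, y1⟩,
    Fin.forall_fin_two.2 ⟨x1, show y ≤ 2 by nlinarith⟩⟩) σ
  rw [hS] at this
  simpa only [cons_val_zero, cons_val_one, e1, e2, e3, smul_add, smul_smul,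
    mul_div_cancel₀ _ h0.ne'] using this

theorem three_values {ι M : Type*} [CommMonoid M] (g : ℝ → M) (t : ι → ℝ) (x y z : ℝ)
    (h : ∀ i, t i = x ∨ t i = y ∨ t i = z) (s : Finset ι) :
    ∃ a b c : ℕ, ∏ i ∈ s, g (t i) = g x ^ a * g y ^ b * g z ^ c := by
  classical
  induction s using Finset.induction_on with
  | empty => exact ⟨0, 0, 0, by simp⟩
  | insert i s hi ih =>
    obtain ⟨a, b, c, e⟩ := ih
    rw [Finset.prod_insert hi, e]
    rcases h i with h | h | h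
    · exact ⟨a + 1, b, c, by rw [h, pow_succ']; simp only [mul_assoc]⟩
    · exact ⟨a, b + 1, c, by rw [h, pow_succ']; simp only [mul_assoc, mul_left_comm]⟩
    · exact ⟨a, b, c + 1, by rw [h, pow_succ']; simp only [mul_assoc, mul_left_comm]⟩

/-- Products of convex combinations of two elements. -/
def Seg {A : Type} [CommRing A] [Algebra ℝ A] (u v : A) : Submonoid A :=
  Submonoid.closure ((fun t : ℝ => u + t • (v - u)) '' Icc 0 1)

theorem pencil {A : Type} [CommRing A] [Algebra ℝ A] (hW : W.Nonempty) (u v : A)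
    (S : A →ₗ[ℝ] MvPolynomial (Fin m) ℝ)
    (h : ∀ (a b c : ℕ) (r : ℝ), 0 < r → S (u ^ a * v ^ b * (u + r • v) ^ c) ∈ HV W ∪ {0}) :
    ∀ g ∈ Seg u v, S g ∈ HV W ∪ {0} := by
  classical
  intro g hg
  obtain ⟨l, hl, rfl⟩ := Submonoid.exists_multiset_of_mem_closure hg
  choose ρ hρ hρ' using fun x : l.ToType => hl x.1 Multiset.coe_mem
  rw [Multiset.prod_eq_prod_coe, ← Finset.prod_congr rfl fun x _ => hρ' x]
  refine targetC u (v - u) S hW (a := fun _ => 0) (b := fun _ => 1) (fun t ht htest => ?_) ρ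
    ⟨fun i => (hρ i).1, fun i => (hρ i).2⟩
  obtain ⟨z, z0, z1, hz⟩ : ∃ z, 0 < z ∧ z < 1 ∧ ∀ i, t i = 0 ∨ t i = 1 ∨ t i = z := by
    have h1 : ∀ i, t i = 0 ∨ t i = 1 ∨ 0 < t i ∧ t i < 1 := fun i =>
      (ht.1 i).eq_or_lt.elim (fun h => .inl h.symm) fun h =>
        .inr ((ht.2 i).eq_or_lt.imp_right fun h' => ⟨h, h'⟩)
    by_cases hin : ∃ j, 0 < t j ∧ t j < 1
    · obtain ⟨j, j1, j2⟩ := hin
      exact ⟨t j, j1, j2, fun i => (h1 i).imp_right (.imp_right fun h => htest i j h.1 h.2 j1 j2)⟩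
    · exact ⟨1 / 2, by norm_num, by norm_num, fun i =>
        (h1 i).imp_right (.imp_right fun h => absurd ⟨i, h⟩ hin)⟩
  obtain ⟨a, b, c, hp⟩ := three_values (fun r => u + r • (v - u)) t _ _ z hz Finset.univ
  have e : u + z • (v - u) = (1 - z) • (u + (z / (1 - z)) • v) := by
    rw [smul_add, smul_smul, mul_div_cancel₀ _ (sub_pos.2 z1).ne']
    module
  rw [F, hp, e, smul_pow, mul_smul_comm, map_smul]
  exact smul_mem (by simpa using h a b c _ (div_pos z0 (sub_pos.2 z1))) _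

/-- Functions given by polynomials that every operator respecting `M` respects. -/
def Gen (W : Set (Fin m → ℝ)) (M : Submonoid (MvPolynomial (Fin n) ℝ)) : Set ((Fin n → ℝ) → ℂ) :=
  {φ | ∃ f, (∀ x, φ x = (MvPolynomial.eval x f : ℝ)) ∧
    ∀ S : MvPolynomial (Fin n) ℝ →ₗ[ℝ] MvPolynomial (Fin m) ℝ,
      (∀ g ∈ M, S g ∈ HV W ∪ {0}) → S f ∈ HV W ∪ {0}}

variable {M : Submonoid (MvPolynomial (Fin n) ℝ)}

theorem gen_iff {φ : (Fin n → ℝ) → ℂ} (hφ : φ ∈ Gen W M) {f : MvPolynomial (Fin n) ℝ}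
    (hf : ∀ x, φ x = (MvPolynomial.eval x f : ℝ))
    {S : MvPolynomial (Fin n) ℝ →ₗ[ℝ] MvPolynomial (Fin m) ℝ}
    (hS : ∀ g ∈ M, S g ∈ HV W ∪ {0}) : S f ∈ HV W ∪ {0} := by
  obtain ⟨f', e, h⟩ := hφ
  rw [MvPolynomial.funext fun x => Complex.ofReal_injective ((hf x).symm.trans (e x))]
  exact h S hS

theorem cls_gen (hW : W.Nonempty) : Cls (Gen W M) where
  one := ⟨1, by simp, fun S hS => hS 1 M.one_mem⟩
  mul := fun ⟨f, e, h⟩ ⟨f', e', h'⟩ => ⟨f * f', by simp [e, e'], fun S hS =>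
    h (S ∘ₗ LinearMap.mulRight ℝ f') fun g hg =>
      h' (S ∘ₗ LinearMap.mulLeft ℝ g) fun g' hg' => hS _ (M.mul_mem hg hg')⟩
  smul := fun c _ ⟨f, e, h⟩ => ⟨c • f, by simp [e], fun S hS => by
    rw [map_smul]; exact smul_mem (h S hS) c⟩
  tri := fun hpq hqr hrp a b c ha hb hc => by
    obtain ⟨p, ep, -⟩ := hpq.left
    obtain ⟨q, eq, -⟩ := hqr.left
    obtain ⟨r, er, -⟩ := hrp.left
    refine ⟨a • p + b • q + c • r, by simp [ep, eq, er], fun S hS => ?_⟩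
    simp only [map_add, map_smul]
    refine triangle hW (fun s t hs ht => ?_) (fun s t hs ht => ?_) (fun s t hs ht => ?_) ha hb hc
    · simpa using gen_iff (hpq s t hs ht) (f := s • p + t • q) (by simp [ep, eq]) hS
    · simpa using gen_iff (hqr s t hs ht) (f := s • q + t • r) (by simp [er, eq]) hS
    · simpa using gen_iff (hrp s t hs ht) (f := s • r + t • p) (by simp [ep, er]) hS

theorem edge_gen (hW : W.Nonempty) {u v : Fin n → ℝ} (h : Seg (lin u) (lin v) ≤ M) :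
    Edge (Gen W M) (fun x => (u ⬝ᵥ x : ℝ)) fun x => (v ⬝ᵥ x : ℝ) := by
  intro a b ha hb
  rcases (add_nonneg ha hb).eq_or_lt with h0 | h0
  · refine mem_of_eq ((cls_gen hW).smul 0 (cls_gen hW).one) fun x => ?_
    simp [(by linarith : a = 0), (by linarith : b = 0)]
  refine mem_of_eq ((cls_gen hW).smul (a + b) ⟨lin u + (b / (a + b)) • (lin v - lin u),
    fun _ => rfl, fun S hS => hS _ (h (Submonoid.subset_closure
      ⟨_, ⟨by positivity, (div_le_one h0).2 (by linarith)⟩, rfl⟩))⟩) fun x => ?_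
  simp only [map_add, MvPolynomial.smul_eval, map_sub, eval_lin, ← Complex.ofReal_mul,
    ← Complex.ofReal_add]
  congr 1
  field_simp
  ring

theorem exists_dual {w : Fin 3 → Fin n → ℝ} (hw : LinearIndependent ℝ w) :
    ∃ a : Fin 3 → Fin n → ℝ, ∀ i j, w i ⬝ᵥ a j = if i = j then 1 else 0 := by
  have h := PosDef.mul_conjTranspose_self (of w) (vecMul_injective_iff.2 hw)
  refine ⟨fun j k => ((of w)ᴴ * (of w * (of w)ᴴ)⁻¹) k j, fun i j => ?_⟩
  have := congrFun (congrFun (mul_nonsing_inv _ h.det_pos.ne'.isUnit) i) j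
  rwa [Matrix.mul_assoc, one_apply] at this

theorem simplicial (hW : W.Nonempty) {w : Fin 3 → Fin n → ℝ} (hw : LinearIndependent ℝ w)
    (T : MvPolynomial (Fin n) ℝ →ₗ[ℝ] MvPolynomial (Fin m) ℝ)
    (h : ∀ (a b c i j k : ℕ) (r s t : ℝ), 0 < r → 0 < s → 0 < t →
      T (lin (w 0) ^ a * lin (w 1) ^ b * lin (w 2) ^ c * (lin (w 0) + r • lin (w 1)) ^ i *
        (lin (w 1) + s • lin (w 2)) ^ j * (lin (w 2) + t • lin (w 0)) ^ k) ∈ HV W ∪ {0})
    {f : MvPolynomial (Fin n) ℝ} (hf : f ∈ HV {x | ∀ i, 0 < w i ⬝ᵥ x}) : T f ∈ HV W ∪ {0} := by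
  set M := Seg (lin (w 0)) (lin (w 1)) ⊔ (Seg (lin (w 1)) (lin (w 2)) ⊔ Seg (lin (w 2)) (lin (w 0)))
  have hM : ∀ g ∈ M, T g ∈ HV W ∪ {0} := by
    intro g hg
    obtain ⟨g0, h0, g', hg', rfl⟩ := Submonoid.mem_sup.1 hg
    obtain ⟨g1, h1, g2, h2, rfl⟩ := Submonoid.mem_sup.1 hg'
    refine pencil hW _ _ (T ∘ₗ LinearMap.mulRight ℝ (g1 * g2)) (fun a b i r hr => ?_) g0 h0
    simp only [LinearMap.comp_apply, LinearMap.mulRight_apply]
    rw [mul_left_comm]
    refine pencil hW _ _ (T ∘ₗ LinearMap.mulRight ℝ (_ * g2)) (fun b' c j s hs => ?_) g1 h1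
    simp only [LinearMap.comp_apply, LinearMap.mulRight_apply]
    rw [← mul_assoc]
    refine pencil hW _ _ (T ∘ₗ LinearMap.mulLeft ℝ _) (fun c' a' k t ht => ?_) g2 h2
    simp only [LinearMap.comp_apply, LinearMap.mulLeft_apply]
    convert h (a + a') (b + b') (c + c') i j k r s t hr hs ht using 2
    ring
  obtain ⟨a, ha⟩ := exists_dual hw
  obtain ⟨d, hd⟩ := hf.1
  have hpos : ∀ t s u : ℝ, 0 < t → 0 < t + s → 0 < t + u →
      t • (a 0 + a 1 + a 2) + (s • a 1 + u • a 2) ∈ {x | ∀ i, 0 < w i ⬝ᵥ x} := by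
    intro t s u h0 h1 h2 i
    fin_cases i <;> simpa [ha]
  have he := hpos 1 0 0 one_pos (by simp) (by simp)
  simp only [one_smul, zero_smul, add_zero] at he
  obtain ⟨k, B, C, hB, hC, hr⟩ := rep3 hd (hf.2 _ he) (a 1) (a 2)
  have hne : ∀ t s u : ℝ, 0 < t → 0 < t + s → 0 < t + u →
      ((t : ℂ) • (1 : Matrix _ _ ℂ) + (s : ℂ) • B + (u : ℂ) • C).det ≠ 0 := fun t s u h0 h1 h2 h3 =>
    (hf.2 _ (hpos t s u h0 h1 h2)).1 (Complex.ofReal_eq_zero.1 (by rw [hr, h3, mul_zero]))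
  have := (cls_gen hW).smul (MvPolynomial.eval (a 0 + a 1 + a 2) f) (moves (cls_gen hW) k
    (edge_gen (M := M) hW le_sup_left) (edge_gen hW (le_sup_of_le_right le_sup_left))
    (edge_gen hW (le_sup_of_le_right le_sup_right)) (1 - B - C) B C
    (psd_of_det ((isHermitian_one.sub hB).sub hC) fun t ht => by
      convert hne (t + 1) (-1) (-1) (by linarith) (by linarith) (by linarith) using 2
      push_cast
      module)
    (psd_of_det hB fun t ht => by simpa using hne t 1 0 ht (by linarith) (by linarith))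
    (psd_of_det hC fun t ht => by simpa using hne t 0 1 ht (by linarith) (by linarith)))
  refine gen_iff this (fun x => ?_) hM
  set y := (w 0 ⬝ᵥ x) • (a 0 + a 1 + a 2) +
    ((w 1 ⬝ᵥ x - w 0 ⬝ᵥ x) • a 1 + (w 2 ⬝ᵥ x - w 0 ⬝ᵥ x) • a 2) with hy
  have e1 := invariance hf (e := a 0 + a 1 + a 2) (y := x - y) (fun r i => by
    have : w i ⬝ᵥ (x - y) = 0 := by fin_cases i <;> simp [hy, ha]
    rw [dotProduct_add, dotProduct_smul, this, smul_zero, add_zero]
    exact he i) y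
  rw [add_sub_cancel] at e1
  rw [e1, hy, hr]
  congr 2
  push_cast
  module

end Pool.Agent.MP_3d209c_an.H61
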