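import Mathlib

/-! Bordered determinants and rank one splittings of positive semidefinite matrices. -/

namespace Pool.Agent.MP_3d209c_an.H61

open Matrix
open scoped ComplexOrder

variable {ι : Type} [Fintype ι] [DecidableEq ι]

/-- A bordered matrix. -/
def bl (m : ℂ) (r c : ι → ℂ) (D : Matrix ι ι ℂ) : Matrix (Unit ⊕ ι) (Unit ⊕ ι) ℂ :=
  fromBlocks (of fun _ _ => m) (of fun _ j => r j) (of fun i _ => c i) D

/-- The change of the determinant under a rank one perturbation. -/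
noncomputable def kap (r c : ι → ℂ) (D : Matrix ι ι ℂ) : ℂ := -(bl 0 r c D).det

omit [Fintype ι] in
theorem bl_row (m : ℂ) (r c : ι → ℂ) (D : Matrix ι ι ℂ) :
    bl m r c D = updateRow (bl 0 0 c D) (.inl ()) (Sum.elim (fun _ => m) r) := by
  ext (i | i) (j | j) <;> simp [bl]

theorem det_bl_add (m m' : ℂ) (r r' c : ι → ℂ) (D : Matrix ι ι ℂ) :
    (bl (m + m') (r + r') c D).det = (bl m r c D).det + (bl m' r' c D).det := by
  rw [bl_row, bl_row m, bl_row m', ← det_updateRow_add]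
  congr 2
  ext (j | j) <;> simp

theorem det_bl (m : ℂ) (r c : ι → ℂ) (D : Matrix ι ι ℂ) :
    (bl m r c D).det = m * D.det - kap r c D := by
  have := det_bl_add m 0 0 r c D
  rw [add_zero, zero_add] at this
  rw [this, kap, sub_neg_eq_add]
  congr 1
  have : (of fun (_ : Unit) j => (0 : ι → ℂ) j) = 0 := rfl
  rw [bl, this, det_fromBlocks_zero₁₂]
  simp

theorem kap_add (r r' c : ι → ℂ) (D : Matrix ι ι ℂ) : kap (r + r') c D = kap r c D + kap r' c D := by
  have := det_bl_add 0 0 r r' c D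
  rw [add_zero] at this
  simp only [kap, this, neg_add]

theorem kap_smul (t : ℂ) (r c : ι → ℂ) (D : Matrix ι ι ℂ) : kap (t • r) c D = t * kap r c D := by
  rw [kap, kap, bl_row, bl_row 0 r, mul_neg, ← det_updateRow_smul]
  congr 3
  ext (j | j) <;> simp

theorem det_add_rank (r c : ι → ℂ) (D : Matrix ι ι ℂ) :
    (D + vecMulVec c r).det = D.det + kap r c D := by
  have := det_bl 1 ((-1 : ℂ) • r) c D
  have e : (of fun (_ _ : Unit) => (1 : ℂ)) = 1 := by ext; simp
  rw [kap_smul, bl, e, det_fromBlocks_one₁₁, one_mul, neg_one_mul, sub_neg_eq_add] at this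
  rw [← this]
  congr 1
  ext i j
  simp [mul_apply, vecMulVec_apply]

theorem kap_smul' (t : ℂ) (r c : ι → ℂ) (D : Matrix ι ι ℂ) : kap r (t • c) D = t * kap r c D := by
  have := det_add_rank r (t • c) D
  rw [smul_vecMulVec, ← vecMulVec_smul, det_add_rank, kap_smul] at this
  linear_combination -this

theorem det_add_smul (t : ℂ) (r c : ι → ℂ) (D : Matrix ι ι ℂ) :
    (D + t • vecMulVec c r).det = D.det + t * kap r c D := by
  rw [← vecMulVec_smul, det_add_rank, kap_smul]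

theorem kap_row (r r' c : ι → ℂ) (D : Matrix ι ι ℂ) : kap r c (D + vecMulVec c r') = kap r c D := by
  have := det_add_rank r c (D + vecMulVec c r')
  rw [add_assoc, ← vecMulVec_add, det_add_rank, det_add_rank, kap_add] at this
  linear_combination -this

theorem kap_tr (r c : ι → ℂ) (D : Matrix ι ι ℂ) : kap r c D = kap c r Dᵀ := by
  have := det_add_rank c r Dᵀ
  rw [← transpose_vecMulVec, ← transpose_add, det_transpose, det_transpose, det_add_rank] at this
  linear_combination this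

theorem kap_col (r c c' : ι → ℂ) (D : Matrix ι ι ℂ) : kap r c (D + vecMulVec c' r) = kap r c D := by
  rw [kap_tr, transpose_add, transpose_vecMulVec, kap_row, ← kap_tr]

/-- The rank one matrix with first entry one. -/
def rk (l : ι → ℂ) : Matrix (Unit ⊕ ι) (Unit ⊕ ι) ℂ := bl 1 (star l) l (vecMulVec l (star l))

theorem det_two (a b : ℂ) (l m : ι → ℂ) (D : Matrix ι ι ℂ) :
    (bl 0 0 0 D + a • rk l + b • rk m).det
      = (a + b) * D.det + a * b * kap (star (m - l)) (m - l) D := by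
  have e : bl 0 0 0 D + a • rk l + b • rk m =
      bl 1 0 m 1 * bl (a + b) (b • star (m - l)) ((-a) • (m - l)) D * bl 1 (star l) 0 1 := by
    ext (i | i) (j | j) <;>
      simp [bl, rk, mul_apply, Fintype.sum_sum_type, one_apply, vecMulVec_apply] <;> ring
  have e1 : kap 0 m (1 : Matrix ι ι ℂ) = 0 := by simpa using kap_smul 0 0 m 1
  have e2 : kap (star l) 0 (1 : Matrix ι ι ℂ) = 0 := by simpa using kap_smul' 0 (star l) 0 1
  rw [e, det_mul, det_mul, det_bl, det_bl, det_bl, kap_smul, kap_smul', e1, e2, det_one]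
  ring

theorem decomp {A : Matrix (Unit ⊕ ι) (Unit ⊕ ι) ℂ} (hA : A.PosSemidef) :
    ∃ (a : ℝ) (l : ι → ℂ) (A' : Matrix ι ι ℂ), 0 ≤ a ∧ (a : ℂ) = A (.inl ()) (.inl ()) ∧
      A'.PosSemidef ∧ A = bl 0 0 0 A' + (a : ℂ) • rk l := by
  obtain ⟨h1, h2⟩ := Complex.nonneg_iff.1 (hA.diag_nonneg (i := .inl ()))
  obtain ⟨a, ha⟩ : ∃ a : ℝ, (a : ℂ) = A (.inl ()) (.inl ()) :=
    ⟨_, Complex.ext (Complex.ofReal_re _) (by simp [h2])⟩
  obtain ⟨l, hl⟩ : ∃ l : ι → ℂ, ∀ i, A (.inr i) (.inl ()) = a * l i := by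
    by_cases h0 : (a : ℂ) = 0
    · refine ⟨0, fun i => ?_⟩
      simpa using congrFun ((hA.dotProduct_mulVec_zero_iff (Pi.single (.inl ()) 1)).1
        (by simp [← ha, h0])) (.inr i)
    · exact ⟨fun i => A (.inr i) (.inl ()) / a, fun i => by field_simp⟩
  have hl' : ∀ i, A (.inl ()) (.inr i) = a * star (l i) := fun i => by
    rw [← hA.1.apply, hl]; simp
  refine ⟨a, l, _, by simpa [← ha] using h1, ha,
    hA.conjTranspose_mul_mul_same (fromRows (of fun _ j => -star (l j)) 1), ?_⟩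
  ext (i | i) (j | j) <;>
    simp [bl, rk, mul_apply, Fintype.sum_sum_type, one_apply, vecMulVec_apply, hl, hl', ← ha]
  ring

theorem cong (u v : ι → ℂ) (D : Matrix ι ι ℂ) :
    (1 - vecMulVec u (star v))ᴴ * D * (1 - vecMulVec u (star v)) =
      D + vecMulVec v ((star u ⬝ᵥ D *ᵥ u) • star v - star u ᵥ* D)
        + vecMulVec (-(D *ᵥ u)) (star v) := by
  rw [conjTranspose_sub, conjTranspose_one, conjTranspose_vecMulVec, star_star, sub_mul, mul_sub,
    sub_mul, sub_mul, vecMulVec_mul, vecMulVec_mul_vecMulVec, vecMulVec_sub, neg_vecMulVec,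
    vecMulVec_smul, dotProduct_mulVec]
  simp only [one_mul, mul_one, mul_vecMulVec, smul_vecMulVec, vecMulVec_smul]
  abel

theorem det_proj {u v : ι → ℂ} (h : star v ⬝ᵥ u = 1) : (1 - vecMulVec u (star v)).det = 0 := by
  rw [sub_eq_add_neg, ← neg_vecMulVec, vecMulVec_eq Unit,
    det_one_add_replicateCol_mul_replicateRow, dotProduct_neg, h, add_neg_cancel]

theorem peel {A : Matrix ι ι ℂ} (hA : A.PosSemidef) {e : ι → ℂ} (he : e ≠ 0) :
    ∃ (a : ℝ) (A' : Matrix ι ι ℂ), 0 ≤ a ∧ A'.PosSemidef ∧ A'.det = 0 ∧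
      A = A' + (a : ℂ) • vecMulVec e (star e) := by
  by_cases h0 : A.det = 0
  · exact ⟨0, A, le_rfl, hA, h0, by simp⟩
  obtain ⟨u, rfl⟩ := (mulVec_surjective_iff_isUnit.2
    ((isUnit_iff_isUnit_det A).2 (Ne.isUnit h0))) e
  obtain ⟨h1, h2⟩ := Complex.nonneg_iff.1 (hA.dotProduct_mulVec_nonneg u)
  obtain ⟨a, ha⟩ : ∃ a : ℝ, (a : ℂ) = star u ⬝ᵥ A *ᵥ u :=
    ⟨_, Complex.ext (Complex.ofReal_re _) (by simp [h2])⟩
  have ha0 : (a : ℂ) ≠ 0 := by rw [ha]; exact mt (hA.dotProduct_mulVec_zero_iff u).1 he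
  have hs : star (A *ᵥ u) = star u ᵥ* A := by rw [star_mulVec, hA.1]
  refine ⟨a⁻¹, _, inv_nonneg.2 (by simpa [← ha] using h1),
    hA.conjTranspose_mul_mul_same (1 - vecMulVec u (star ((a : ℂ)⁻¹ • (A *ᵥ u)))), ?_, ?_⟩
  · rw [det_mul, det_proj, mul_zero]
    rw [star_smul, smul_dotProduct, hs, ← dotProduct_mulVec, ← ha]
    simp [ha0]
  · rw [cong, ← ha, ← hs]
    ext i j
    simp [vecMulVec_apply]
    field_simp
    simp

theorem exists_frame {u : ι → ℂ} (hu : u ≠ 0) (k : ι) :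
    ∃ P : Matrix ι ι ℂ, P.det ≠ 0 ∧ ∀ i, P i k = u i := by
  obtain ⟨j, hj⟩ := Function.ne_iff.1 hu
  refine ⟨(updateCol 1 j u).submatrix id (Equiv.swap j k), ?_, fun i => by simp⟩
  rw [det_permute', ← cramer_apply, cramer_one]
  exact mul_ne_zero (by simp [Int.cast_eq_zero]) hj

end Pool.Agent.MP_3d209c_an.H61
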