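import Pool.Agent.MP_3d209c_an.H61.Herm

/-! Non-negative polynomials are squares of moduli; symmetric polynomial matrices are diagonal
in a suitable frame. -/

namespace Pool.Agent.MP_3d209c_an.H61

open Polynomial Matrix Filter Topology
open scoped ComplexOrder

theorem nonneg_of_real_mul {r : ℝ} (hr : 0 < r) {z : ℂ} (h : 0 ≤ (r : ℂ) * z) : 0 ≤ z := by
  rw [Complex.nonneg_iff] at h ⊢
  simp only [Complex.re_ofReal_mul, Complex.im_ofReal_mul] at h
  exact ⟨nonneg_of_mul_nonneg_right h.1 hr, ((mul_eq_zero.1 h.2.symm).resolve_left hr.ne').symm⟩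

theorem sq_of_nonneg (q : ℂ[X]) (h : ∀ᶠ s : ℝ in cofinite, 0 ≤ q.eval (s : ℂ)) :
    ∃ ρ : ℂ[X], q = ρ.map (starRingEnd ℂ) * ρ := by
  induction hk : q.natDegree using Nat.strong_induction_on generalizing q with
  | _ k ih =>
  by_cases hd : q.degree ≤ 0
  · obtain ⟨s, hs⟩ := h.exists
    rw [eq_C_of_degree_le_zero hd] at hs ⊢
    rw [eval_C] at hs
    obtain ⟨h1, h2⟩ := Complex.nonneg_iff.1 hs
    refine ⟨C (√(q.coeff 0).re : ℝ), ?_⟩
    rw [map_C, Complex.conj_ofReal, ← C_mul, ← Complex.ofReal_mul, Real.mul_self_sqrt h1]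
    congr 1
    exact Complex.ext (by simp) (by simp [h2])
  obtain ⟨a, ha⟩ := Complex.exists_root (not_le.1 hd)
  have hq : q ≠ 0 := by rintro rfl; simp at hd
  obtain ⟨q1, e1⟩ := dvd_iff_isRoot.2 ha
  have hc : q.map (starRingEnd ℂ) = q := eq_of_cofinite (by
    filter_upwards [h] with s hs
    have := eval_cj q s
    rw [Complex.star_def, Complex.conj_ofReal] at this
    rw [this]
    exact Complex.conj_eq_iff_im.2 (Complex.nonneg_iff.1 hs).2.symm)
  have h1 : q1.IsRoot (star a) := by
    by_cases hi : a.im = 0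
    · have a4 : ((a.re : ℝ) : ℂ) = a := Complex.ext (by simp) (by simp [hi])
      have c1 : Continuous fun s : ℝ => q1.eval (s : ℂ) :=
        q1.continuous.comp Complex.continuous_ofReal
      have b0 : ∀ s : ℝ, q.eval (s : ℂ) = ((s - a.re : ℝ) : ℂ) * q1.eval (s : ℂ) := fun s => by
        rw [e1, Complex.ofReal_sub, a4]; simp
      have b1 : 0 ≤ q1.eval ((a.re : ℝ) : ℂ) := by
        refine ge_of_tendsto (x := 𝓝[>] a.re) ((c1.tendsto _).mono_left nhdsWithin_le_nhds) ?_
        filter_upwards [h.filter_mono ((nhdsGT_le_nhdsNE _).trans (nhdsNE_le_cofinite _)),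
          self_mem_nhdsWithin] with s hs hs'
        rw [b0] at hs
        exact nonneg_of_real_mul (sub_pos.2 hs') hs
      have b2 : q1.eval ((a.re : ℝ) : ℂ) ≤ 0 := by
        refine le_of_tendsto (x := 𝓝[<] a.re) ((c1.tendsto _).mono_left nhdsWithin_le_nhds) ?_
        filter_upwards [h.filter_mono ((nhdsLT_le_nhdsNE _).trans (nhdsNE_le_cofinite _)),
          self_mem_nhdsWithin] with s hs hs'
        rw [b0] at hs
        rw [← neg_mul_neg, ← Complex.ofReal_neg] at hs
        exact neg_nonneg.1 (nonneg_of_real_mul (neg_pos.2 (sub_neg.2 hs')) hs)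
      rw [← a4, Complex.star_def, Complex.conj_ofReal]
      exact le_antisymm b2 b1
    · have := eval_cj q a
      rw [hc, ha.eq_zero, star_zero, e1, eval_mul] at this
      refine (mul_eq_zero.1 this).resolve_left fun h0 => hi ?_
      have := congrArg Complex.im h0
      simp at this
      linarith
  obtain ⟨q2, e2⟩ := dvd_iff_isRoot.2 h1
  rw [e2] at e1
  have hq2 : q2 ≠ 0 := by rintro rfl; simp [hq] at e1
  obtain ⟨ρ, hρ⟩ := ih q2.natDegree (by
    rw [← hk, e1, natDegree_mul (X_sub_C_ne_zero _) (mul_ne_zero (X_sub_C_ne_zero _) hq2),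
      natDegree_mul (X_sub_C_ne_zero _) hq2, natDegree_X_sub_C]
    omega) q2 (by
    filter_upwards [h, ev_ne (X_sub_C_ne_zero a)] with s hs hs'
    rw [e1, ← mul_assoc, eval_mul] at hs
    have : eval (s : ℂ) ((X - C a) * (X - C (star a)))
        = Complex.normSq (eval (s : ℂ) (X - C a)) := by rw [← Complex.mul_conj]; simp
    rw [this] at hs
    exact nonneg_of_real_mul (Complex.normSq_pos.2 hs') hs) rfl
  refine ⟨(X - C a) * ρ, ?_⟩
  rw [e1, hρ]
  simp only [Polynomial.map_mul, Polynomial.map_sub, map_X, map_C, Complex.star_def]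
  ring

theorem exists_diag {d : ℕ} (H : Matrix (Fin d) (Fin d) ℝ[X]) (hH : H.IsSymm) :
    ∃ P : Matrix (Fin d) (Fin d) ℝ[X], P.det ≠ 0 ∧ (Pᵀ * H * P).IsDiag := by
  let K := FractionRing ℝ[X]
  let φ := algebraMap ℝ[X] K
  have hφ : Function.Injective φ := IsFractionRing.injective _ _
  have : CharZero K := charZero_of_injective_algebraMap hφ
  have : Invertible (2 : K) := invertibleOfNonzero two_ne_zero
  obtain ⟨v, hv⟩ := LinearMap.BilinForm.exists_orthogonal_basis (B := Matrix.toBilin' (H.map φ))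
    (LinearMap.BilinForm.isSymm_iff.1 (Matrix.isSymm_toBilin'_iff_isSymm.2 (hH.map _)))
  let v' := v.reindex (finCongr (Module.finrank_fin_fun K))
  have hv' : ∀ i j, i ≠ j → v' i ⬝ᵥ H.map φ *ᵥ v' j = 0 := fun i j hij => by
    rw [← Matrix.toBilin'_apply']
    simpa [v'] using hv (i := (finCongr (Module.finrank_fin_fun K)).symm i)
      (j := (finCongr (Module.finrank_fin_fun K)).symm j) (by simpa using hij)
  obtain ⟨b, hb⟩ := IsLocalization.exist_integer_multiples_of_finite (nonZeroDivisors ℝ[X])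
    fun p : Fin d × Fin d => v' p.2 p.1
  choose P hP using hb
  have hP' : (of fun i j => P (i, j)).map φ = φ b • (of fun i j => v' j i) := by
    ext i j
    simpa [Algebra.smul_def] using hP (i, j)
  refine ⟨of fun i j => P (i, j), fun h0 => ?_, fun i j hij => hφ ?_⟩
  · have := RingHom.map_det φ (of fun i j => P (i, j))
    rw [h0, map_zero, RingHom.mapMatrix_apply, hP', det_smul] at this
    refine mul_ne_zero (pow_ne_zero _ ?_) ?_ this.symm
    · exact (map_ne_zero_iff _ hφ).2 (nonZeroDivisors.coe_ne_zero b)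
    · have := (Pi.basisFun K (Fin d)).isUnit_det v'
      rw [Pi.basisFun_det_apply, ← det_transpose] at this
      exact this.ne_zero
  · have e : ((of fun i j => P (i, j))ᵀ * H * (of fun i j => P (i, j))).map φ =
        φ b • φ b • ((of fun i j => v' j i)ᵀ * (H.map φ * of fun i j => v' j i)) := by
      rw [Matrix.map_mul, Matrix.map_mul, transpose_map, hP', transpose_smul, Matrix.smul_mul,
        Matrix.smul_mul, Matrix.mul_smul, Matrix.mul_assoc]
    have e' := congrFun (congrFun e i) j
    rw [map_apply] at e'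
    rw [e', map_zero]
    change φ b • φ b • (v' i ⬝ᵥ H.map φ *ᵥ v' j) = 0
    simp [hv' i j hij]

end Pool.Agent.MP_3d209c_an.H61
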