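import Pool.Agent.MP_3d209c_an.H61.Diag

/-! Hermitian determinantal representations of real zero polynomials in two variables. -/

namespace Pool.Agent.MP_3d209c_an.H61

open Polynomial Matrix Filter Topology
open scoped ComplexOrder

/-- Evaluation of a real polynomial at a real number, as a complex number. -/
noncomputable def ev (s : ℝ) : ℝ[X] →+* ℂ := Complex.ofRealHom.comp (evalRingHom s)

theorem ev_apply (s : ℝ) (q : ℝ[X]) : ev s q = (q.eval s : ℝ) := rfl

theorem eval_cx (s : ℝ) (q : ℝ[X]) : (q.map Complex.ofRealHom).eval (s : ℂ) = ev s q := by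
  rw [eval_map]; exact eval₂_at_apply Complex.ofRealHom s

variable {ι : Type} [Fintype ι] [DecidableEq ι]

omit [Fintype ι] [DecidableEq ι] in
theorem at_cx (s : ℝ) (Z : Matrix ι ι ℝ[X]) :
    at' (Z.map (mapRingHom Complex.ofRealHom)) s = Z.map (ev s) := by
  ext i j; exact eval_cx s _

omit [Fintype ι] [DecidableEq ι] in
theorem ev_star (s : ℝ) (Z : Matrix ι ι ℝ[X]) : (Z.map (ev s))ᴴ = Zᵀ.map (ev s) := by
  ext i j; simp [ev_apply]

theorem trace_sq [Nonempty ι] (A : Matrix ι ι ℝ[X]) (s : ℝ)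
    (h : ∀ t, (A.map (ev s)).charpoly.eval t = 0 → t.im = 0) (q : ℝ[X][X]) :
    0 ≤ ev s (aeval A (q * q)).trace ∧
      (ev s (aeval A (q * q)).trace = 0 → ev s (aeval A (q * q)).det = 0) := by
  set N := (aeval A (q * q)).map (ev s) with hN
  have e : N = aeval (A.map (ev s)) ((q * q).map (ev s)) :=
    map_aeval_eq_aeval_map (ψ := (ev s).mapMatrix) (RingHom.ext fun r => by
      ext i j; simp [algebraMap_matrix_apply]; split_ifs <;> simp) _ A
  have h1 : ∀ μ ∈ N.charpoly.roots, 0 ≤ μ := by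
    intro μ hμ
    have := mem_spectrum_iff_isRoot_charpoly.2 (isRoot_of_mem_roots hμ)
    rw [e, spectrum.map_polynomial_aeval_of_nonempty _ _
      (spectrum.nonempty_of_isAlgClosed_of_finiteDimensional ℂ _)] at this
    obtain ⟨t, ht, rfl⟩ := this
    have a4 : ((t.re : ℝ) : ℂ) = t :=
      Complex.ext (by simp) (by simp [h t (mem_spectrum_iff_isRoot_charpoly.1 ht)])
    have : (q.map (ev s)).eval t = ((q.map (evalRingHom s)).eval t.re : ℝ) := by
      rw [← ev_apply, ← eval_cx, Polynomial.map_map, a4]; rfl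
    simp only [Polynomial.map_mul, eval_mul, this, ← Complex.ofReal_mul]
    exact Complex.zero_le_real.2 (mul_self_nonneg _)
  rw [AddMonoidHom.map_trace, RingHom.map_det, RingHom.mapMatrix_apply, ← hN,
    trace_eq_sum_roots_charpoly, det_eq_prod_roots_charpoly]
  refine ⟨Multiset.sum_nonneg h1, fun h0 => ?_⟩
  obtain ⟨μ, hμ⟩ := spectrum.nonempty_of_isAlgClosed_of_finiteDimensional ℂ N
  have hμ' := (mem_roots N.charpoly_monic.ne_zero).2 (mem_spectrum_iff_isRoot_charpoly.1 hμ)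
  exact Multiset.prod_eq_zero
    (le_antisymm (h0 ▸ Multiset.single_le_sum h1 μ hμ') (h1 μ hμ') ▸ hμ')

theorem hv_basis {S : Type} [CommRing S] [IsDomain S] [Algebra ℝ[X] S] (pb : PowerBasis ℝ[X] S)
    {K : ℝ} (h : ∀ (s : ℝ) (t : ℂ), ((minpoly ℝ[X] pb.gen).map (ev s)).eval t = 0 →
      t.im = 0 ∧ ‖t‖ ≤ K * (1 + |s|)) :
    ∃ M0 M1 : Matrix (Fin pb.dim) (Fin pb.dim) ℂ, M0.IsHermitian ∧ M1.IsHermitian ∧
      ∀ s : ℝ, (M0 + (s : ℂ) • M1).charpoly = (minpoly ℝ[X] pb.gen).map (ev s) := by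
  have : Nonempty (Fin pb.dim) := ⟨⟨0, pb.dim_pos⟩⟩
  simp only [← charpoly_leftMulMatrix, ← charpoly_map] at h ⊢
  set A := Algebra.leftMulMatrix pb.basis pb.gen with hA
  have ht : ∀ y : S, y ≠ 0 → ∃ ρ : ℂ[X], ρ ≠ 0 ∧ ∀ s : ℝ,
      ev s (Algebra.trace ℝ[X] S (y * y)) = star (ρ.eval (s : ℂ)) * ρ.eval (s : ℂ) := by
    intro y hy
    obtain ⟨q, rfl⟩ := pb.exists_eq_aeval' y
    have e : Algebra.leftMulMatrix pb.basis (aeval pb.gen q * aeval pb.gen q) = aeval A (q * q) := by
      rw [← map_mul, ← aeval_algHom_apply]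
    have h1 := fun s => trace_sq A s (fun t ht => (h s t ht).1) q
    rw [Algebra.trace_eq_matrix_trace pb.basis, e]
    obtain ⟨ρ, hρ⟩ := sq_of_nonneg ((aeval A (q * q)).trace.map Complex.ofRealHom)
      (.of_forall fun s => by rw [eval_cx]; exact (h1 s).1)
    have h2 : ∀ s : ℝ, ev s (aeval A (q * q)).trace = star (ρ.eval (s : ℂ)) * ρ.eval (s : ℂ) := by
      intro s
      rw [← eval_cx, hρ, eval_mul, ← eval_cj, Complex.star_def, Complex.conj_ofReal]
    refine ⟨ρ, fun h0 => mul_ne_zero hy hy ?_, h2⟩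
    rw [← Algebra.norm_eq_zero_iff_of_basis pb.basis, Algebra.norm_eq_matrix_det pb.basis, e]
    refine Polynomial.funext fun s => ?_
    have := (h1 s).2 (by rw [h2, h0]; simp)
    rw [ev_apply] at this
    simpa using this
  set H := Algebra.traceMatrix ℝ[X] pb.basis with hH
  have hHA : H * A = Aᵀ * H := by
    rw [hH, hA, Algebra.traceMatrix_of_basis, Algebra.leftMulMatrix_apply,
      ← LinearMap.BilinForm.toMatrix_compRight, ← LinearMap.BilinForm.toMatrix_compLeft]
    congr 1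
    ext x y
    simp [mul_left_comm, mul_assoc]
  obtain ⟨P, hP, hD⟩ := exists_diag H (by ext i j; simp [hH, mul_comm])
  have hy : ∀ i, (pb.basis ᵥ* P.map (algebraMap ℝ[X] S)) i ≠ 0 := fun i h0 => hP <|
    det_eq_zero_of_column_eq_zero i (Fintype.linearIndependent_iff.1 pb.basis.linearIndependent
      (fun k => P k i) (by simpa [vecMul, dotProduct, Algebra.smul_def, mul_comm] using h0))
  choose ρ hρ0 hρ using fun i => ht _ (hy i)
  have hD' : ∀ s : ℝ, (Pᵀ * H * P).map (ev s) =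
      (at' (diagonal ρ) s)ᴴ * at' (diagonal ρ) s := fun s => by
    rw [← hD.diagonal_diag, at', diagonal_map (by simp), diagonal_map (by simp),
      diagonal_conjTranspose, diagonal_mul_diagonal]
    congr 1
    ext i
    rw [diag_apply, hH, ← Algebra.traceMatrix_of_matrix_vecMul]
    exact hρ i s
  refine (herm_of_sym (A.map (mapRingHom Complex.ofRealHom))
    (diagonal ρ * P.adjugate.map (mapRingHom Complex.ofRealHom)) (K := K) ?_ (fun s => ?_)
    (fun s t ht => (h s t (by rwa [at_cx] at ht)).2)).imp fun M0 => .imp fun M1 ⟨m0, m1, hM⟩ =>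
      ⟨m0, m1, fun s => by rw [hM, at_cx]⟩
  · rw [det_mul, det_diagonal, ← RingHom.mapMatrix_apply, ← RingHom.map_det, det_adjugate]
    exact mul_ne_zero (Finset.prod_ne_zero_iff.2 fun i _ => hρ0 i)
      (Polynomial.map_ne_zero (pow_ne_zero _ hP))
  · have e : P.adjugateᵀ * (Pᵀ * H * P * P.adjugate) = P.det • P.det • H := by
      rw [Matrix.mul_assoc _ P, mul_adjugate, Matrix.mul_assoc, ← Matrix.mul_assoc, ← transpose_mul,
        mul_adjugate]
      simp
    rw [at_mul, at_cx, at_cx, conjTranspose_mul, Matrix.mul_assoc (_ᴴ) (_ᴴ),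
      ← Matrix.mul_assoc (at' _ _)ᴴ, ← hD', ev_star, ev_star]
    simp only [← Matrix.map_mul]
    rw [e, Matrix.smul_mul, Matrix.smul_mul, hHA, Matrix.mul_smul, Matrix.mul_smul]

theorem hv (p : ℝ[X][X]) (hp : p.Monic) {K : ℝ}
    (h : ∀ (s : ℝ) (t : ℂ), (p.map (ev s)).eval t = 0 → t.im = 0 ∧ ‖t‖ ≤ K * (1 + |s|)) :
    ∃ (d : ℕ) (M0 M1 : Matrix (Fin d) (Fin d) ℂ), M0.IsHermitian ∧ M1.IsHermitian ∧
      ∀ s : ℝ, (M0 + (s : ℂ) • M1).charpoly = p.map (ev s) := by
  induction hk : p.natDegree using Nat.strong_induction_on generalizing p with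
  | _ k ih =>
  by_cases h1 : p = 1
  · exact ⟨0, 0, 0, isHermitian_zero, isHermitian_zero, fun s => by simp [h1]⟩
  by_cases hi : Irreducible p
  · have := AdjoinRoot.isDomain_of_prime hi.prime
    have e : minpoly ℝ[X] (AdjoinRoot.powerBasis' hp).gen = p := by
      refine (minpoly.unique' _ _ hp (by simp) fun q hq => or_iff_not_imp_left.2 fun h0 => ?_).symm
      rw [degree_eq_natDegree hp.ne_zero] at hq
      contrapose! hq
      exact (AdjoinRoot.powerBasis' hp).dim_le_degree_of_root h0 hq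
    have := hv_basis (AdjoinRoot.powerBasis' hp) (K := K) (by rwa [e])
    rw [e] at this
    exact ⟨_, this⟩
  rw [irreducible_of_monic hp h1] at hi
  push Not at hi
  obtain ⟨f, g, hf, hg, rfl, hf1, hg1⟩ := hi
  have d1 := hf.natDegree_pos.2 hf1
  have d2 := hg.natDegree_pos.2 hg1
  rw [hf.natDegree_mul hg] at hk
  obtain ⟨d, M0, M1, m0, m1, hM⟩ := ih _ (by omega) f hf
    (fun s t ht => h s t (by rw [Polynomial.map_mul, eval_mul, ht, zero_mul])) rfl
  obtain ⟨d', N0, N1, n0, n1, hN⟩ := ih _ (by omega) g hg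
    (fun s t ht => h s t (by rw [Polynomial.map_mul, eval_mul, ht, mul_zero])) rfl
  refine ⟨d + d', reindex finSumFinEquiv finSumFinEquiv (fromBlocks M0 0 0 N0),
    reindex finSumFinEquiv finSumFinEquiv (fromBlocks M1 0 0 N1),
    (m0.fromBlocks (by simp) n0).submatrix _, (m1.fromBlocks (by simp) n1).submatrix _, fun s => ?_⟩
  rw [Polynomial.map_mul, ← hM, ← hN, ← charpoly_fromBlocks_zero₁₂ (M₂₁ := 0),
    ← charpoly_reindex finSumFinEquiv (fromBlocks _ _ _ _)]
  congr 1
  ext i j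
  simp only [reindex_apply, Matrix.add_apply, Matrix.smul_apply, submatrix_apply]
  rcases finSumFinEquiv.symm i with i | i <;> rcases finSumFinEquiv.symm j with j | j <;> simp

end Pool.Agent.MP_3d209c_an.H61
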