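import Pool.Agent.MP_3d209c_an.H61.Pot

/-! A polynomial matrix with a positive symmetrizer and eigenvalues of linear growth has the
characteristic polynomial of a Hermitian pencil. -/

namespace Pool.Agent.MP_3d209c_an.H61

open Polynomial Matrix Filter Topology
open scoped ComplexOrder

variable {ι : Type} [Fintype ι] [DecidableEq ι]

theorem charpoly_of_intertwine {R : Type*} [CommRing R] [IsDomain R] {Q A B : Matrix ι ι R}
    (hQ : Q.det ≠ 0) (h : Q * A = B * Q) : A.charpoly = B.charpoly := by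
  have e : (C : R →+* R[X]).mapMatrix Q * charmatrix A
      = charmatrix B * (C : R →+* R[X]).mapMatrix Q := by
    simp only [charmatrix, mul_sub, sub_mul, ← map_mul, h]
    rw [(scalar_commute X (fun r => Commute.all _ _) _).eq]
  have e2 := congrArg det e
  rw [det_mul, det_mul, ← RingHom.map_det, mul_comm] at e2
  exact mul_right_cancel₀ (C_ne_zero.2 hQ) e2

theorem entry_bound {M : Matrix ι ι ℂ} (hM : M.IsHermitian) {B : ℝ}
    (h : ∀ t, M.charpoly.eval t = 0 → ‖t‖ ≤ B) (i j : ι) : ‖M i j‖ ≤ Fintype.card ι * B := by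
  have h1 : ∀ k, ‖(hM.eigenvalues k : ℂ)‖ ≤ B := fun k => h _ (by
    rw [hM.charpoly_eq, eval_prod]
    exact Finset.prod_eq_zero (Finset.mem_univ k) (by simp))
  have h2 := entry_norm_bound_of_unitary hM.eigenvectorUnitary.2
  have e := congrFun (congrFun hM.spectral_theorem i) j
  rw [Unitary.conjStarAlgAut_apply, Matrix.mul_apply] at e
  rw [e, ← nsmul_eq_mul, ← Finset.card_univ]
  refine (norm_sum_le _ _).trans (Finset.sum_le_card_nsmul _ _ _ fun k _ => ?_)
  rw [mul_diagonal, star_apply, norm_mul, norm_mul, norm_star]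
  have := h1 k
  have a1 := h2 i k
  have a2 := h2 j k
  have a3 := (norm_nonneg _).trans this
  calc _ ≤ 1 * B * 1 := by gcongr; exact this
    _ = B := by ring

theorem herm_of_sym (A Q : Matrix ι ι ℂ[X]) (hQ : Q.det ≠ 0)
    (hs : ∀ s : ℝ, (at' Q s)ᴴ * at' Q s * at' A s = (at' A s)ᴴ * ((at' Q s)ᴴ * at' Q s)) {K : ℝ}
    (hb : ∀ (s : ℝ) (t : ℂ), (at' A s).charpoly.eval t = 0 → ‖t‖ ≤ K * (1 + |s|)) :
    ∃ M0 M1 : Matrix ι ι ℂ, M0.IsHermitian ∧ M1.IsHermitian ∧
      ∀ s : ℂ, (M0 + s • M1).charpoly = (at' A s).charpoly := by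
  obtain ⟨Q', e1, hQ', h0⟩ := potapov Q hQ
  simp only [← e1] at hs
  clear e1 hQ Q
  set N := Q' * A * Q'.adjugate with hN
  have key : ∀ s : ℝ, Q'.det.eval (s : ℂ) ≠ 0 → ∃ M : Matrix ι ι ℂ, M.IsHermitian ∧
      M.charpoly = (at' A s).charpoly ∧ at' N s = Q'.det.eval (s : ℂ) • M := by
    intro s h
    rw [← det_at] at h ⊢
    have hu := isUnit_iff_ne_zero.2 h
    have hu' : IsUnit (at' Q' s)ᴴ.det := by rw [det_conjTranspose]; exact hu.star
    refine ⟨at' Q' s * at' A s * (at' Q' s)⁻¹, ?_, ?_, ?_⟩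
    · have := congrArg (fun Z => (at' Q' s)ᴴ⁻¹ * Z * (at' Q' s)⁻¹) (hs s)
      simp only [Matrix.mul_assoc, nonsing_inv_mul_cancel_left _ _ hu', mul_nonsing_inv _ hu,
        Matrix.mul_one] at this
      rw [IsHermitian, conjTranspose_mul, conjTranspose_mul, conjTranspose_nonsing_inv,
        Matrix.mul_assoc (at' Q' s), this]
    · exact (charpoly_of_intertwine h (by rw [nonsing_inv_mul_cancel_right _ _ hu])).symm
    · rw [hN, at_mul, at_mul, at_adj, inv_def, Ring.inverse_eq_inv', Matrix.mul_smul, smul_smul,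
        mul_inv_cancel₀ h, one_smul]
  have hd : ∀ i j, ∃ a b : ℂ, N i j = (C a + C b * X) * Q'.det := fun i j =>
    divide (n' := N j i) (K := Fintype.card ι * K) hQ' h0 ?_ ?_
  rotate_left
  · filter_upwards [ev_ne hQ'] with s h
    obtain ⟨M, m1, -, m3⟩ := key s h
    have a1 : (N i j).eval (s : ℂ) = _ := congrFun (congrFun m3 i) j
    have a2 : (N j i).eval (s : ℂ) = _ := congrFun (congrFun m3 j) i
    rw [a1, a2, Matrix.smul_apply, Matrix.smul_apply, smul_eq_mul, smul_eq_mul, star_mul, m1.apply]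
    ring
  · filter_upwards [ev_ne hQ'] with s h
    obtain ⟨M, m1, m2, m3⟩ := key s h
    have a1 : (N i j).eval (s : ℂ) = _ := congrFun (congrFun m3 i) j
    rw [a1, Matrix.smul_apply, smul_eq_mul, norm_mul, mul_comm, mul_assoc _ K]
    exact mul_le_mul_of_nonneg_right (entry_bound m1 (m2 ▸ hb s) i j) (norm_nonneg _)
  choose a b hab using hd
  let L : Matrix ι ι ℂ[X] := fun i j => C (a i j) + C (b i j) * X
  have hL : N = Q'.det • L := by ext1 i j; rw [hab, Matrix.smul_apply, smul_eq_mul, mul_comm]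
  have hL' : ∀ s : ℂ, at' L s = of a + s • of b := fun s => by
    ext i j; simp [at', L, mul_comm s]
  have hh : ∀ i j, C (a i j) + C (b i j) * X = C (star (a j i)) + C (star (b j i)) * X := by
    intro i j
    apply eq_of_cofinite
    filter_upwards [ev_ne hQ'] with s h
    obtain ⟨M, m1, -, m3⟩ := key s h
    have a0 : ∀ i j, M i j = a i j + b i j * s := fun i j => by
      have a1 : (N i j).eval (s : ℂ) = _ := congrFun (congrFun m3 i) j
      rw [hab, Matrix.smul_apply, smul_eq_mul, eval_mul, mul_comm] at a1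
      simpa using (mul_left_cancel₀ h a1).symm
    have := m1.apply i j
    rw [a0, a0] at this
    simpa using this.symm
  refine ⟨of a, of b, IsHermitian.ext fun i j => ?_, IsHermitian.ext fun i j => ?_, fun s => ?_⟩
  · simpa using (congrArg (coeff · 0) (hh i j)).symm
  · simpa using (congrArg (coeff · 1) (hh i j)).symm
  · have e : Q' * A = L * Q' := by
      have e := congrArg (· * Q') hL
      simp only [hN, Matrix.mul_assoc, adjugate_mul, Matrix.mul_smul, Matrix.mul_one,
        Matrix.smul_mul] at e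
      exact smul_right_injective _ hQ' e
    rw [← hL', at', at', ← coe_evalRingHom, charpoly_map, charpoly_map,
      charpoly_of_intertwine hQ' e]

end Pool.Agent.MP_3d209c_an.H61
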