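import Mathlib

/-! Spectral factorization: moving the zeros of a determinant out of the upper half plane, and
polynomial matrices of linear growth. -/

namespace Pool.Agent.MP_3d209c_an.H61

open Polynomial Matrix Filter Topology
open scoped ComplexOrder

variable {ι : Type} [Fintype ι] [DecidableEq ι]

/-- Value of a polynomial matrix. -/
noncomputable def at' (Q : Matrix ι ι ℂ[X]) (s : ℂ) : Matrix ι ι ℂ := Q.map (eval s)

theorem at_eq (Q : Matrix ι ι ℂ[X]) (s : ℂ) : at' Q s = (evalRingHom s).mapMatrix Q := rfl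

theorem det_at (Q : Matrix ι ι ℂ[X]) (s : ℂ) : (at' Q s).det = Q.det.eval s := by
  rw [at_eq, ← RingHom.map_det]; rfl

theorem at_mul (Q Q' : Matrix ι ι ℂ[X]) (s : ℂ) : at' (Q * Q') s = at' Q s * at' Q' s := by
  simp only [at_eq, map_mul]

theorem at_adj (Q : Matrix ι ι ℂ[X]) (s : ℂ) : at' Q.adjugate s = (at' Q s).adjugate := by
  simp only [at_eq, RingHom.map_adjugate]

theorem eq_of_cofinite {p q : ℂ[X]} (h : ∀ᶠ s : ℝ in cofinite, p.eval (s : ℂ) = q.eval (s : ℂ)) :
    p = q := by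
  refine eq_of_infinite_eval_eq _ _ ?_
  have h1 : {s : ℝ | p.eval (s : ℂ) = q.eval (s : ℂ)}.Infinite :=
    Set.infinite_of_finite_compl (eventually_cofinite.1 h)
  exact (h1.image Complex.ofReal_injective.injOn).mono (by rintro _ ⟨s, hs, rfl⟩; exact hs)

theorem ev_ne {p : ℂ[X]} (hp : p ≠ 0) : ∀ᶠ s : ℝ in cofinite, p.eval (s : ℂ) ≠ 0 := by
  rw [eventually_cofinite]
  refine ((p.finite_setOfPred_isRoot hp).preimage Complex.ofReal_injective.injOn).subset fun s hs => ?_
  simpa using hs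

theorem potapov_step (Q : Matrix ι ι ℂ[X]) {a : ℂ} (ha : 0 < a.im) (h0 : Q.det.eval a = 0) :
    ∃ Q' : Matrix ι ι ℂ[X], (∀ s : ℝ, (at' Q' s)ᴴ * at' Q' s = (at' Q s)ᴴ * at' Q s) ∧
      (X - C a) * Q'.det = (X - C (star a)) * Q.det := by
  obtain ⟨v, hv, hv0⟩ := exists_vecMul_eq_zero_iff.2 ((det_at Q a).trans h0)
  have hn : v ⬝ᵥ star v ≠ 0 := mt dotProduct_self_star_eq_zero.1 hv
  set n := v ⬝ᵥ star v with hn'
  have hnr : star n = n := by
    rw [hn', dotProduct_comm, ← star_dotProduct, dotProduct_comm]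
  have hw : ∀ j, ∃ w, ∑ i, C (v i) * Q i j = (X - C a) * w := fun j => dvd_iff_isRoot.2 (by
    have := congrFun hv0 j
    simpa [vecMul, dotProduct, at', eval_finsetSum] using this)
  choose w hw using hw
  let Q' : Matrix ι ι ℂ[X] := fun i j => Q i j + C ((a - star a) / n * star (v i)) * w j
  have key : ∀ s : ℂ, s ≠ a →
      at' Q' s = (1 + vecMulVec (((a - star a) / n / (s - a)) • star v) v) * at' Q s := by
    intro s hs
    have hs' : s - a ≠ 0 := sub_ne_zero.2 hs
    ext i j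
    have e := congrArg (eval s) (hw j)
    simp only [eval_finsetSum, eval_mul, eval_C, eval_sub, eval_X] at e
    rw [add_mul, one_mul, vecMulVec_mul]
    simp only [at', Q', map_apply, eval_add, eval_mul, eval_C, Matrix.add_apply, vecMulVec_apply, vecMul,
      dotProduct, Pi.smul_apply, smul_eq_mul, Pi.star_apply, e]
    field_simp
  refine ⟨Q', fun s => ?_, ?_⟩
  · have hs : (s : ℂ) ≠ a := fun h => by rw [← h] at ha; simp at ha
    have hs' : (s : ℂ) - a ≠ 0 := sub_ne_zero.2 hs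
    have hs'' : (s : ℂ) - star a ≠ 0 := fun h => hs' (by simpa using congrArg star h)
    set β := (a - star a) / n / (s - a) with hβ
    have hβ' : star β = (star a - a) / n / (s - star a) := by
      simp only [hβ, star_div₀, star_sub, star_star, hnr]
      simp
    have e : (1 + vecMulVec (β • star v) v)ᴴ * (1 + vecMulVec (β • star v) v) = 1 := by
      have e1 : star β + β + star β * β * n = 0 := by
        rw [hβ', hβ]; field_simp; ring
      rw [conjTranspose_add, conjTranspose_one, conjTranspose_vecMulVec, add_mul, mul_add, mul_add,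
        vecMulVec_mul_vecMulVec]
      ext i j
      simp only [one_mul, mul_one, Matrix.add_apply, vecMulVec_apply, star_smul, star_star, Pi.smul_apply,
        smul_eq_mul, smul_dotProduct, dotProduct_smul, Pi.star_apply, ← hn']
      linear_combination star (v i) * v j * e1
    rw [key s hs, conjTranspose_mul, mul_assoc, ← mul_assoc _ _ (at' Q s), e, one_mul]
  · refine eq_of_infinite_eval_eq _ _ ((Set.finite_singleton a).infinite_compl.mono fun s hs => ?_)
    have hs' : s - a ≠ 0 := sub_ne_zero.2 hs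
    simp only [Set.mem_ofPred_eq, eval_mul, eval_sub, eval_X, eval_C, ← det_at]
    rw [key s hs, det_mul, vecMulVec_eq Unit, det_one_add_replicateCol_mul_replicateRow,
      dotProduct_smul, ← hn', smul_eq_mul]
    field_simp
    ring

theorem potapov (Q : Matrix ι ι ℂ[X]) (hQ : Q.det ≠ 0) :
    ∃ Q' : Matrix ι ι ℂ[X], (∀ s : ℝ, (at' Q' s)ᴴ * at' Q' s = (at' Q s)ᴴ * at' Q s) ∧
      Q'.det ≠ 0 ∧ ∀ a : ℂ, 0 < a.im → Q'.det.eval a ≠ 0 := by
  classical
  induction hk : (Q.det.roots.filter fun a => 0 < a.im).card generalizing Q with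
  | zero =>
    refine ⟨Q, fun _ => rfl, hQ, fun a ha h0 => ?_⟩
    have : a ∈ Q.det.roots.filter fun a => 0 < a.im :=
      Multiset.mem_filter.2 ⟨(mem_roots hQ).2 h0, ha⟩
    rw [Multiset.card_eq_zero.1 hk] at this
    simp at this
  | succ k ih =>
    obtain ⟨a, ha⟩ := Multiset.card_pos_iff_exists_mem.1 (hk.trans_gt k.succ_pos)
    obtain ⟨h1, h2⟩ := Multiset.mem_filter.1 ha
    obtain ⟨Q', e1, e2⟩ := potapov_step Q h2 ((mem_roots hQ).1 h1)
    have n1 : (X - C (star a)) * Q.det ≠ 0 := mul_ne_zero (X_sub_C_ne_zero _) hQ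
    have e3 := congrArg (fun p : ℂ[X] => (p.roots.filter fun a => 0 < a.im).card) e2
    rw [roots_mul (e2 ▸ n1), roots_mul n1, roots_X_sub_C, roots_X_sub_C, Multiset.filter_add,
      Multiset.filter_add, Multiset.card_add, Multiset.card_add, hk, Multiset.filter_singleton,
      Multiset.filter_singleton, if_pos h2, if_neg (by simp [h2.le])] at e3
    obtain ⟨Q'', f1, f2⟩ := ih Q' (right_ne_zero_of_mul (e2 ▸ n1)) (by simp at e3; omega)
    exact ⟨Q'', fun s => (f1 s).trans (e1 s), f2⟩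

theorem linear_of_growth {m : ℂ[X]} {K : ℝ}
    (h : ∀ᶠ s : ℝ in cofinite, ‖m.eval (s : ℂ)‖ ≤ K * (1 + |s|)) :
    ∃ a b : ℂ, m = C a + C b * X := by
  have hd : m.divX.degree ≤ 0 := by
    by_contra hd
    have h1 := m.divX.tendsto_norm_atTop (not_le.1 hd) (l := atTop) (z := fun s : ℝ => (s : ℂ))
      (by simpa using tendsto_abs_atTop_atTop)
    obtain ⟨s, s1, s2, s3⟩ := ((h.filter_mono (atTop_le_cofinite (α := ℝ))).and
      ((h1.eventually_gt_atTop (2 * |K| + ‖m.coeff 0‖)).and (eventually_ge_atTop 1))).exists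
    have e : m.divX.eval (s : ℂ) * s = m.eval (s : ℂ) - m.coeff 0 := by
      conv_rhs => rw [← divX_mul_X_add m]
      simp
    have e2 := congrArg norm e
    rw [norm_mul, Complex.norm_real, Real.norm_eq_abs] at e2
    have e3 := norm_sub_le (m.eval (s : ℂ)) (m.coeff 0)
    rw [abs_of_pos (by linarith : 0 < s)] at e2 s1
    have := le_abs_self K
    have := abs_nonneg K
    have := norm_nonneg (m.coeff 0)
    nlinarith
  refine ⟨m.coeff 0, m.divX.coeff 0, ?_⟩
  rw [← eq_C_of_degree_le_zero hd, add_comm, divX_mul_X_add]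

theorem eval_cj (p : ℂ[X]) (s : ℂ) : (p.map (starRingEnd ℂ)).eval (star s) = star (p.eval s) := by
  rw [eval_map]
  exact eval₂_at_apply (starRingEnd ℂ) s

theorem divide {n n' δ : ℂ[X]} (hδ : δ ≠ 0) (h0 : ∀ a : ℂ, 0 < a.im → δ.eval a ≠ 0)
    (hs : ∀ᶠ s : ℝ in cofinite, n.eval (s : ℂ) * star (δ.eval (s : ℂ)) =
      star (n'.eval (s : ℂ)) * δ.eval (s : ℂ)) {K : ℝ}
    (hb : ∀ᶠ s : ℝ in cofinite, ‖n.eval (s : ℂ)‖ ≤ K * (1 + |s|) * ‖δ.eval (s : ℂ)‖) :
    ∃ a b : ℂ, n = (C a + C b * X) * δ := by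
  classical
  have e0 : n * δ.map (starRingEnd ℂ) = n'.map (starRingEnd ℂ) * δ := eq_of_cofinite (by
    filter_upwards [hs] with s hs
    have e1 := eval_cj δ s
    have e2 := eval_cj n' s
    rw [Complex.star_def, Complex.conj_ofReal] at e1 e2
    rw [eval_mul, eval_mul, e1, e2]
    exact hs)
  obtain ⟨u, w, hu, hw, hc⟩ := extract_gcd n δ
  set g := gcd n δ
  have hc' : IsCoprime u w := (gcd_isUnit_iff u w).1 hc
  have hg : g ≠ 0 := left_ne_zero_of_mul (hw ▸ hδ)
  have hb' : ∀ᶠ s : ℝ in cofinite, ‖u.eval (s : ℂ)‖ ≤ K * (1 + |s|) * ‖w.eval (s : ℂ)‖ := by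
    filter_upwards [hb, ev_ne hg] with s h1 h2
    rw [hu, hw, eval_mul, eval_mul, norm_mul, norm_mul, mul_left_comm] at h1
    exact le_of_mul_le_mul_left h1 (norm_pos_iff.2 h2)
  have hdvd : w ∣ δ.map (starRingEnd ℂ) := hc'.symm.dvd_of_dvd_mul_left ⟨n'.map (starRingEnd ℂ),
    mul_left_cancel₀ hg (by
      linear_combination e0 - δ.map (starRingEnd ℂ) * hu + n'.map (starRingEnd ℂ) * hw)⟩
  have hdeg : w.degree ≤ 0 := by
    by_contra hd
    obtain ⟨a, ha⟩ := Complex.exists_root (not_le.1 hd)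
    have a1 : eval a δ = 0 := by rw [hw, eval_mul, ha.eq_zero, mul_zero]
    have a2 : eval (star a) δ = 0 := by
      have := eval_cj δ (star a)
      rw [star_star, (ha.dvd hdvd).eq_zero] at this
      exact star_eq_zero.1 this.symm
    have a3 : a.im = 0 := le_antisymm (not_lt.1 fun h => h0 _ h a1)
      (not_lt.1 fun h => h0 _ (by simpa using h) a2)
    have a4 : ((a.re : ℝ) : ℂ) = a := Complex.ext (by simp) (by simp [a3])
    have c1 : ∀ p : Polynomial ℂ, Continuous fun s : ℝ => ‖p.eval (s : ℂ)‖ := fun p =>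
      (p.continuous.comp Complex.continuous_ofReal).norm
    have a5 := le_of_tendsto_of_tendsto (b := nhdsWithin a.re {a.re}ᶜ)
      (((c1 u).tendsto a.re).mono_left nhdsWithin_le_nhds)
      ((((continuous_const.mul (continuous_const.add continuous_abs)).mul (c1 w)).tendsto
        a.re).mono_left nhdsWithin_le_nhds) (hb'.filter_mono (nhdsNE_le_cofinite _))
    simp only [Pi.mul_apply] at a5
    rw [a4, ha.eq_zero, norm_zero, mul_zero, norm_le_zero_iff] at a5
    obtain ⟨x, y, hxy⟩ := hc'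
    have := congrArg (eval a) hxy
    simp [a5, ha.eq_zero] at this
  rw [eq_C_of_degree_le_zero hdeg] at hw hb'
  set c := w.coeff 0
  have hc0 : c ≠ 0 := fun h => hδ (by rw [hw, h]; simp)
  obtain ⟨a, b, hab⟩ := linear_of_growth (m := u) (K := K * ‖c‖) (by
    filter_upwards [hb'] with s hs
    rw [eval_C] at hs
    linarith)
  refine ⟨a / c, b / c, ?_⟩
  rw [hu, hw, hab]
  have : C c * C c⁻¹ = 1 := by rw [← C_mul, mul_inv_cancel₀ hc0, C_1]
  simp only [div_eq_mul_inv, C_mul]
  linear_combination (-g * (C a + C b * X)) * this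

end Pool.Agent.MP_3d209c_an.H61
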