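import Pool.Agent.MP_3d209c_an.H61.HV
import Pool.Agent.MP_3d209c_an.H71.Dual

/-! Determinantal representation of a hyperbolic polynomial on a three-dimensional subspace, and
the hyperbolicity cone. -/

namespace Pool.Agent.MP_3d209c_an.H61

open Polynomial Matrix Filter Topology Pool.Agent.MP_3d209c_an.H71
open scoped ComplexOrder

variable {n : ℕ} {f : MvPolynomial (Fin n) ℝ} {d : ℕ} {e : Fin n → ℝ}

theorem eval_scale (hd : f.IsHomogeneous d) (c : ℝ) (x : Fin n → ℝ) :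
    MvPolynomial.eval (c • x) f = c ^ d * MvPolynomial.eval x f := aeval_scale hd c x

theorem growth (hd : f.IsHomogeneous d) (hf : MvPolynomial.eval e f ≠ 0) (a b : Fin n → ℝ) :
    ∃ K : ℝ, ∀ s t : ℝ, MvPolynomial.eval (t • e + (s • a + b)) f = 0 → |t| ≤ K * (1 + |s|) := by
  have hc : Continuous fun p : ℝ × ℝ => MvPolynomial.eval (e + (p.1 • a + p.2 • b)) f :=
    (MvPolynomial.continuous_eval f).comp (by fun_prop)
  obtain ⟨ε, hε, h⟩ := Metric.eventually_nhds_iff.1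
    ((hc.continuousAt (x := 0)).eventually_ne (y := 0) (by simpa using hf))
  refine ⟨ε⁻¹, fun s t h0 => not_lt.1 fun hlt => ?_⟩
  rw [inv_mul_lt_iff₀ hε] at hlt
  have hs := abs_nonneg s
  have ht : 0 < |t| := by nlinarith
  have ht' := abs_pos.1 ht
  refine h (y := (s / t, 1 / t)) ?_ ?_
  · rw [dist_zero_right, Prod.norm_def, max_lt_iff, Real.norm_eq_abs, Real.norm_eq_abs, abs_div,
      abs_div, div_lt_iff₀ ht, div_lt_iff₀ ht, abs_one]
    constructor <;> linarith
  · have e1 : t • e + (s • a + b) = t • (e + ((s / t) • a + (1 / t) • b)) := by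
      simp only [smul_add, smul_smul, mul_div_cancel₀ _ ht', one_smul]
    rw [e1, eval_scale hd] at h0
    exact (mul_eq_zero.1 h0).resolve_left (pow_ne_zero _ ht')

theorem rep3 (hd : f.IsHomogeneous d) (hf : Hyp e f) (a b : Fin n → ℝ) :
    ∃ (k : ℕ) (A B : Matrix (Fin k) (Fin k) ℂ), A.IsHermitian ∧ B.IsHermitian ∧ ∀ t s u : ℝ,
      (MvPolynomial.eval (t • e + (s • a + u • b)) f : ℂ) =
        MvPolynomial.eval e f * ((t : ℂ) • (1 : Matrix _ _ ℂ) + (s : ℂ) • A + (u : ℂ) • B).det := by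
  set c := MvPolynomial.eval e f with hc
  have hc0 : c ≠ 0 := hf.1
  let p : ℝ[X][X] := C (C c⁻¹) *
    MvPolynomial.aeval (fun i => C (C (e i)) * X + C (C (a i) * X + C (b i))) f
  have hp : ∀ s t : ℝ, (p.map (evalRingHom s)).eval t
      = c⁻¹ * MvPolynomial.eval (t • e + (s • a + b)) f := by
    intro s t
    simp only [p, Polynomial.map_mul, eval_mul, map_C, eval_C, coe_evalRingHom]
    congr 1
    generalize f = g
    induction g using MvPolynomial.induction_on with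
    | C r => simp [Polynomial.algebraMap_apply]
    | add g g' h h' => rw [map_add, Polynomial.map_add, eval_add, h, h', map_add]
    | mul_X g i h =>
      rw [map_mul, Polynomial.map_mul, eval_mul, h]
      simp [mul_comm s, mul_comm t]
  have hρ : ∀ s : ℝ, ∃ ρ : Fin d → ℝ, p.map (evalRingHom s) = ∏ i, (X + C (ρ i)) := fun s => by
    obtain ⟨ρ, hρ⟩ := factor_plane hd hf (s • a + b)
    refine ⟨ρ, Polynomial.funext fun t => ?_⟩
    have := hρ t 1
    rw [one_smul] at this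
    rw [hp, this, ← hc, inv_mul_cancel_left₀ hc0, eval_prod]
    simp
  have hm : ∀ s : ℝ, (p.map (evalRingHom s)).IsMonicOfDegree d := fun s => by
    obtain ⟨ρ, hρ⟩ := hρ s
    rw [hρ]
    exact ⟨by rw [natDegree_prod_of_monic _ _ fun i _ => monic_X_add_C _]; simp,
      monic_prod_of_monic _ _ fun i _ => monic_X_add_C _⟩
  have hmon : p.Monic := by
    refine monic_of_natDegree_le_of_coeff_eq_one d (natDegree_le_iff_coeff_eq_zero.2 fun j hj =>
      Polynomial.funext fun s => ?_) (Polynomial.funext fun s => ?_)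
    · simpa using coeff_eq_zero_of_natDegree_lt ((hm s).natDegree_eq.trans_lt hj)
    · simpa [(hm s).natDegree_eq] using (hm s).monic.coeff_natDegree
  have hev : ∀ s : ℝ, p.map (ev s) = (p.map (evalRingHom s)).map Complex.ofRealHom := fun s => by
    rw [Polynomial.map_map]; rfl
  obtain ⟨K, hK⟩ := growth hd hf.1 a b
  obtain ⟨k, M0, M1, m0, m1, hM⟩ := hv p hmon (K := K) fun s t ht => by
    obtain ⟨ρ, hρ⟩ := hρ s
    rw [hev, hρ, Polynomial.map_prod, eval_prod, Finset.prod_eq_zero_iff] at ht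
    obtain ⟨i, -, hi⟩ := ht
    have e1 : t = ((-ρ i : ℝ) : ℂ) := by simpa [add_eq_zero_iff_eq_neg] using hi
    rw [e1, Complex.ofReal_im, Complex.norm_real]
    refine ⟨rfl, hK _ _ ((mul_eq_zero.1 ?_).resolve_left (inv_ne_zero hc0))⟩
    rw [← hp, hρ, eval_prod]
    exact Finset.prod_eq_zero (Finset.mem_univ i) (by simp)
  have hk : k = d := by
    have := congrArg natDegree (hM 0)
    rwa [charpoly_natDegree_eq_dim, Fintype.card_fin, hev, natDegree_map, (hm 0).natDegree_eq]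
      at this
  refine ⟨k, -M1, -M0, m1.neg, m0.neg, fun t s u => ?_⟩
  refine congrFun (Continuous.ext_on (f := fun u : ℝ =>
    (MvPolynomial.eval (t • e + (s • a + u • b)) f : ℂ)) (dense_compl_singleton (0 : ℝ))
    (Complex.continuous_ofReal.comp ((MvPolynomial.continuous_eval f).comp (by fun_prop)))
    (g := fun u : ℝ => c * ((t : ℂ) • (1 : Matrix _ _ ℂ) + (s : ℂ) • -M1 + (u : ℂ) • -M0).det)
    (by fun_prop) fun u hu => ?_) u
  have hu0 : u ≠ 0 := hu
  have hu1 : (u : ℂ) ≠ 0 := Complex.ofReal_ne_zero.2 hu0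
  have hc1 : (c : ℂ) ≠ 0 := Complex.ofReal_ne_zero.2 hc0
  have e1 : t • e + (s • a + u • b) = u • ((t / u) • e + ((s / u) • a + b)) := by
    simp only [smul_add, smul_smul, mul_div_cancel₀ _ hu0]
  have e2 := congrArg (eval ((t / u : ℝ) : ℂ)) (hM (s / u))
  rw [hev, eval_cx, ev_apply, hp, eval_charpoly] at e2
  have e3 : (t : ℂ) • (1 : Matrix _ _ ℂ) + (s : ℂ) • -M1 + (u : ℂ) • -M0
      = (u : ℂ) • (scalar (Fin k) ((t / u : ℝ) : ℂ) - (M0 + ((s / u : ℝ) : ℂ) • M1)) := by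
    rw [scalar_apply, ← smul_one_eq_diagonal]
    simp only [smul_sub, smul_add, smul_smul, Complex.ofReal_div, mul_div_cancel₀ _ hu1, smul_neg]
    abel
  simp only
  rw [e1, eval_scale hd, e3, det_smul, e2, Fintype.card_fin, hk]
  push_cast
  field_simp

theorem psd_of_det {ι : Type} [Fintype ι] [DecidableEq ι] {A : Matrix ι ι ℂ} (hA : A.IsHermitian)
    (h : ∀ t : ℝ, 0 < t → ((t : ℂ) • (1 : Matrix ι ι ℂ) + A).det ≠ 0) : A.PosSemidef := by
  refine hA.posSemidef_iff_eigenvalues_nonneg.2 fun i => not_lt.1 fun hi => h _ (neg_pos.2 hi) ?_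
  have : A.charpoly.eval (hA.eigenvalues i : ℂ) = 0 := by
    rw [hA.charpoly_eq, eval_prod]
    exact Finset.prod_eq_zero (Finset.mem_univ i) (by simp)
  rw [eval_charpoly, scalar_apply, ← smul_one_eq_diagonal, ← neg_sub, det_neg] at this
  rw [Complex.ofReal_neg, neg_smul, neg_add_eq_sub]
  simpa using this

/-- Points joined to `e` by a segment without zeros of `f`. -/
def Gc (e : Fin n → ℝ) (f : MvPolynomial (Fin n) ℝ) : Set (Fin n → ℝ) :=
  {x | ∀ τ ∈ Set.Icc (0 : ℝ) 1, MvPolynomial.eval (τ • e + (1 - τ) • x) f ≠ 0}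

theorem isOpen_Gc : IsOpen (Gc e f) := by
  have := isClosed_proj (isCompact_Icc (a := (0 : ℝ)) (b := 1))
    (R := {p : (Fin n → ℝ) × ℝ | MvPolynomial.eval (p.2 • e + (1 - p.2) • p.1) f = 0})
    (isClosed_eq ((MvPolynomial.continuous_eval f).comp (by fun_prop)) continuous_const)
  convert this.isOpen_compl using 1
  ext x
  simp [Gc]

theorem posDef_of_Gc {ι : Type} [Fintype ι] [DecidableEq ι] {A : Matrix ι ι ℂ}
    (hA : A.IsHermitian) {x : Fin n → ℝ} (hx : x ∈ Gc e f) {c : ℂ}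
    (h : ∀ t s : ℝ, (MvPolynomial.eval (t • e + s • x) f : ℂ) =
      c * ((t : ℂ) • (1 : Matrix ι ι ℂ) + (s : ℂ) • A).det) : A.PosDef := by
  have h1 : ∀ t : ℝ, 0 ≤ t → ((t : ℂ) • (1 : Matrix ι ι ℂ) + A).det ≠ 0 := fun t ht h0 => by
    have h2 : 0 < 1 + t := by linarith
    refine hx (t / (1 + t)) ⟨by positivity, (div_le_one h2).2 (by linarith)⟩
      (Complex.ofReal_eq_zero.1 ?_)
    have e1 : ((t / (1 + t) : ℝ) : ℂ) • (1 : Matrix ι ι ℂ) + ((1 - t / (1 + t) : ℝ) : ℂ) • A =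
        ((1 / (1 + t) : ℝ) : ℂ) • ((t : ℂ) • (1 : Matrix ι ι ℂ) + A) := by
      rw [smul_add, smul_smul, ← Complex.ofReal_mul]
      congr 3 <;> field_simp <;> ring
    rw [h, e1, det_smul, h0, mul_zero, mul_zero]
  exact (psd_of_det hA fun t ht => h1 t ht.le).posDef_iff_det_ne_zero.2 (by simpa using h1 0 le_rfl)

theorem rep_Gc (hd : f.IsHomogeneous d) (hf : Hyp e f) {x : Fin n → ℝ} (hx : x ∈ Gc e f)
    (y : Fin n → ℝ) :
    ∃ (k : ℕ) (A B : Matrix (Fin k) (Fin k) ℂ), A.PosDef ∧ B.IsHermitian ∧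
      (y ∈ Gc e f → B.PosDef) ∧ ∀ t s u : ℝ, (MvPolynomial.eval (t • e + (s • x + u • y)) f : ℂ) =
        MvPolynomial.eval e f * ((t : ℂ) • (1 : Matrix _ _ ℂ) + (s : ℂ) • A + (u : ℂ) • B).det := by
  obtain ⟨k, A, B, hA, hB, h⟩ := rep3 hd hf x y
  exact ⟨k, A, B, posDef_of_Gc hA hx fun t s => by simpa using h t s 0, hB,
    fun hy => posDef_of_Gc hB hy fun t s => by simpa using h t 0 s, h⟩

theorem comb_Gc (hd : f.IsHomogeneous d) (hf : Hyp e f) {x y : Fin n → ℝ} (hx : x ∈ Gc e f)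
    (hy : y ∈ Gc e f) {a b : ℝ} (ha : 0 < a) (hb : 0 ≤ b) : a • x + b • y ∈ Gc e f := by
  obtain ⟨k, A, B, hA, -, hB, h⟩ := rep_Gc hd hf hx y
  intro τ hτ h0
  have := h τ ((1 - τ) * a) ((1 - τ) * b)
  rw [mul_smul, mul_smul, ← smul_add, h0] at this
  refine mul_ne_zero (Complex.ofReal_ne_zero.2 hf.1) (PosDef.det_pos ?_).ne' this.symm
  have h1 := sub_nonneg.2 hτ.2
  refine PosDef.add_posSemidef ?_ ((hB hy).posSemidef.smul (Complex.zero_le_real.2 (by positivity)))
  rcases hτ.1.eq_or_lt with rfl | h2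
  · simpa using hA.smul (Complex.zero_lt_real.2 ha)
  · exact (PosDef.one.smul (Complex.zero_lt_real.2 h2)).add_posSemidef
      (hA.posSemidef.smul (Complex.zero_le_real.2 (by positivity)))

theorem hyp_Gc (hd : f.IsHomogeneous d) (hf : Hyp e f) {x : Fin n → ℝ} (hx : x ∈ Gc e f) :
    Hyp x f := by
  refine ⟨by simpa using hx 0 ⟨le_rfl, zero_le_one⟩, fun y z hz => ?_⟩
  obtain ⟨k, A, B, hA, hB, -, h⟩ := rep_Gc hd hf hx y
  have e1 : ∀ z : ℂ, at' ((X : ℂ[X]) • A.map C + B.map C) z = z • A + B := fun z => by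
    ext i j; simp [at', mul_comm z]
  have e2 : pl (fun i => (y i : ℂ)) (fun i => (x i : ℂ)) f =
      C (MvPolynomial.eval e f : ℂ) * ((X : ℂ[X]) • A.map C + B.map C).det :=
    eq_of_cofinite (.of_forall fun s => by
      have := h 0 s 1
      simp only [zero_smul, one_smul, zero_add, Complex.ofReal_zero, Complex.ofReal_one] at this
      rw [eval_pl, eval_mul, eval_C, ← det_at, e1, ← this, ← H71.aeval_ofReal]
      congr 2
      ext i
      simp [add_comm])
  rw [← eval_pl, e2, eval_mul, eval_C, ← det_at, e1] at hz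
  obtain ⟨v, hv, hv0⟩ := exists_mulVec_eq_zero_iff.2
    ((mul_eq_zero.1 hz).resolve_left (Complex.ofReal_ne_zero.2 hf.1))
  have e3 := congrArg (fun w => (star v ⬝ᵥ w).im) hv0
  obtain ⟨h1, h2⟩ := Complex.pos_iff.1 (hA.dotProduct_mulVec_pos hv)
  have h3 : (star v ⬝ᵥ B *ᵥ v).im = 0 := hB.im_star_dotProduct_mulVec_self v
  simp only [add_mulVec, smul_mulVec, dotProduct_add, dotProduct_smul, smul_eq_mul, Complex.add_im,
    Complex.mul_im, h3, ← h2, dotProduct_zero, Complex.zero_im] at e3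
  simpa [h1.ne'] using e3

theorem subset_Gc (hd : f.IsHomogeneous d) (hf : Hyp e f) {V : Set (Fin n → ℝ)}
    (hV : IsPreconnected V) (he : e ∈ V) (h : ∀ x ∈ V, MvPolynomial.eval x f ≠ 0) :
    V ⊆ Gc e f := by
  refine hV.subset_of_closure_inter_subset isOpen_Gc ⟨e, he, fun τ _ => ?_⟩ ?_
  · rw [← add_smul, add_sub_cancel, one_smul]; exact hf.1
  rintro x ⟨hx, hxV⟩ τ hτ h0
  rcases hτ.1.eq_or_lt with rfl | h2
  · exact h x hxV (by simpa using h0)
  have key : τ ^ d * |MvPolynomial.eval e f| ≤ |MvPolynomial.eval (τ • e + (1 - τ) • x) f| := by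
    refine closure_minimal (fun y hy => ?_) (isClosed_le (f := fun _ => τ ^ d * |_|)
      continuous_const (((MvPolynomial.continuous_eval f).comp
        (f := fun y => τ • e + (1 - τ) • y) (by fun_prop)).abs)) hx
    obtain ⟨ρ, hρ⟩ := factor_plane hd hf y
    have h3 : ∀ i, 0 ≤ ρ i := fun i => not_lt.1 fun hi => by
      have h4 : 0 < 1 - ρ i := by linarith
      refine hy (-ρ i / (1 - ρ i)) ⟨div_nonneg (by linarith) h4.le, (div_le_one h4).2 (by linarith)⟩ ?_
      rw [hρ, Finset.prod_eq_zero (Finset.mem_univ i) (by field_simp; ring), mul_zero]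
    have h5 : τ ^ d ≤ ∏ i, (τ + ρ i * (1 - τ)) := by
      have := Finset.prod_le_prod (s := Finset.univ) (f := fun _ : Fin d => τ) (fun _ _ => h2.le)
        fun i _ => le_add_of_nonneg_right (mul_nonneg (h3 i) (sub_nonneg.2 hτ.2))
      simpa using this
    change _ ≤ |MvPolynomial.eval (τ • e + (1 - τ) • y) f|
    rw [hρ, abs_mul, mul_comm]
    exact mul_le_mul_of_nonneg_left (h5.trans (le_abs_self _)) (abs_nonneg _)
  rw [h0, abs_zero] at key
  exact absurd key (not_le.2 (mul_pos (pow_pos h2 _) (abs_pos.2 hf.1)))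

end Pool.Agent.MP_3d209c_an.H61
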